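import Pool.Agent.TH98.SC.Good

/-! # Chains of Morse pieces with controlled junctions -/

set_option autoImplicit false

namespace Pool.Agent.TH98.SC

open Pool.Agent.H659R3.MorseLim

variable {G : Type} [Group G] (A : FinGen G)

/-- The union of the pieces `Q i, ..., Q (j - 1)`. -/
def UU (Q : ℕ → Set G) (i j : ℕ) : Set G := {v | ∃ k, i ≤ k ∧ k < j ∧ v ∈ Q k}

/-- A chain of pieces `Q 0, ..., Q m` with junction points `z 0, ..., z (m - 1)`. -/
structure Chain (ν : ℕ → ℕ) (C l m : ℕ) (Q : ℕ → Set G) (z : ℕ → G) : Prop where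
  mono : Monotone ν
  morse : ∀ k ≤ m, MSet A ν (Q k)
  memL : ∀ k < m, z k ∈ Q k
  memR : ∀ k < m, z k ∈ Q (k + 1)
  junc : ∀ k < m, ∀ v ∈ Q k, ∀ v' ∈ Q (k + 1), A.dist v v' ≤ 2 * ν 7 → A.dist v (z k) ≤ C
  long : ∀ k, k + 1 < m → l ≤ A.dist (z k) (z (k + 1))

/-- The constant `D₀`. -/
def D0 (ν : ℕ → ℕ) (C : ℕ) : ℕ := C + ν 7 + 1

variable {A}
variable {ν : ℕ → ℕ} {C l m : ℕ} {Q : ℕ → Set G} {z : ℕ → G}

omit [Group G] in
theorem UU_mono {i j i' j' : ℕ} (hi : i' ≤ i) (hj : j ≤ j') : UU Q i j ⊆ UU Q i' j' := by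
  rintro v ⟨k, h1, h2, h3⟩
  exact ⟨k, by omega, by omega, h3⟩

omit [Group G] in
theorem UU_union {i k j : ℕ} (h1 : i ≤ k) (h2 : k ≤ j) : UU Q i k ∪ UU Q k j = UU Q i j := by
  ext v
  constructor
  · rintro (⟨a, h, h', hv⟩ | ⟨a, h, h', hv⟩)
    · exact ⟨a, h, by omega, hv⟩
    · exact ⟨a, by omega, h', hv⟩
  · rintro ⟨a, h, h', hv⟩
    rcases lt_or_ge a k with hak | hak
    · exact Or.inl ⟨a, h, hak, hv⟩
    · exact Or.inr ⟨a, hak, h', hv⟩

omit [Group G] in
theorem UU_single {i : ℕ} : UU Q i (i + 1) = Q i := by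
  ext v
  constructor
  · rintro ⟨a, h, h', hv⟩
    have : a = i := by omega
    rwa [← this]
  · intro hv
    exact ⟨i, le_rfl, by omega, hv⟩

/-- Geodesics between points on two sides of a junction pass near the junction. -/
theorem lemmaQ (c : Chain A ν C l m Q z) (hl : 2 * D0 ν C + ν 7 < l) :
    ∀ d i j, j = i + d → j ≤ m + 1 →
    (∀ i' j', i ≤ i' → i' < j' → j' ≤ j → j' - i' < d → GoodAt A 3 (ν 7) (UU Q i' j')) →
    ∀ k, i ≤ k → k + 1 < j → ∀ (n : ℕ) (p : ℕ → G), IsGeo A n p → p 0 ∈ UU Q i (k + 1) →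
      p n ∈ UU Q (k + 1) j → ∃ t ≤ n, A.dist (p t) (z k) ≤ D0 ν C := by
  intro d
  induction d using Nat.strong_induction_on with
  | _ d ih =>
    intro i j hj hjm hgood k hik hkj n p hp h0 hn
    obtain ⟨t, D, σ, ht, hD, -, hσ, s0, s1, ⟨q, hq, q1, q2⟩, ⟨q', hq', q1', q2'⟩⟩ :=
      split_near (hp.isPath (K := 1) le_rfl) (z k)
    refine ⟨t, ht, ?_⟩
    rw [← hD]
    by_contra hcon
    push Not at hcon
    have hkm : k < m := by omega
    -- the point `v` on the geodesic from `p t` to `z k`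
    have hv : A.dist (σ (D - D0 ν C)) (z k) = D0 ν C := by
      rw [← s1, hσ (D - D0 ν C) D (by omega) le_rfl]; omega
    obtain ⟨v', hv', hvd'⟩ := hgood i (k + 1) le_rfl (by omega) (by omega) (by omega) _ q hq
      (by rw [q1 0 (Nat.zero_le _)]; exact h0)
      (by rw [q2 D le_rfl, s1]; exact ⟨k, hik, by omega, c.memL k hkm⟩)
      (t + (D - D0 ν C)) (by omega)
    rw [q2 _ (by omega)] at hvd'
    obtain ⟨v'', hv'', hvd''⟩ := hgood (k + 1) j (by omega) (by omega) le_rfl (by omega) _ q' hq'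
      (by
        have := q1' n ht le_rfl
        rw [Nat.sub_self] at this
        rw [this]; exact hn)
      (by rw [q2' D le_rfl, s1]; exact ⟨k + 1, le_rfl, by omega, c.memR k hkm⟩)
      ((n - t) + (D - D0 ν C)) (by omega)
    rw [q2' _ (by omega)] at hvd''
    have t1 := A.dist_triangle v' (σ (D - D0 ν C)) (z k)
    rw [A.dist_comm v' (σ (D - D0 ν C))] at t1
    have t2 := A.dist_triangle (σ (D - D0 ν C)) v' (z k)
    have t3 := A.dist_triangle (z k) (σ (D - D0 ν C)) v''
    rw [A.dist_comm (z k) (σ (D - D0 ν C))] at t3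
    -- `v'` is in the piece `Q k`
    have hv'k : v' ∈ Q k := by
      obtain ⟨k', h1, h2, h3⟩ := hv'
      rcases Nat.lt_or_ge k' k with h | h
      · exfalso
        obtain ⟨η, hη, e0, e1⟩ := exists_geo A v' (z k)
        obtain ⟨s, hs, hsd⟩ := ih (k + 1 - i) (by omega) i (k + 1) (by omega) (by omega)
          (fun i' j' a1 a2 a3 a4 => hgood i' j' a1 a2 (by omega) (by omega)) (k - 1) (by omega)
          (by omega) _ η hη (by rw [e0]; exact ⟨k', h1, by omega, h3⟩)
          (by rw [e1]; exact ⟨k, by omega, by omega, c.memL k hkm⟩)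
        have hlong := c.long (k - 1) (by omega)
        have e : k - 1 + 1 = k := by omega
        rw [e] at hlong
        have u1 := A.dist_triangle (z (k - 1)) (η s) (z k)
        rw [A.dist_comm (z (k - 1)) (η s)] at u1
        have u2 := hη s _ hs le_rfl
        rw [e1] at u2
        omega
      · have : k' = k := by omega
        rwa [← this]
    have hv''k : v'' ∈ Q (k + 1) := by
      obtain ⟨k', h1, h2, h3⟩ := hv''
      rcases Nat.lt_or_ge (k + 1) k' with h | h
      · exfalso
        obtain ⟨η, hη, e0, e1⟩ := exists_geo A (z k) v''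
        obtain ⟨s, hs, hsd⟩ := ih (j - (k + 1)) (by omega) (k + 1) j (by omega) hjm
          (fun i' j' a1 a2 a3 a4 => hgood i' j' (by omega) a2 a3 (by omega)) (k + 1) le_rfl
          (by omega) _ η hη (by rw [e0]; exact ⟨k + 1, le_rfl, by omega, c.memR k hkm⟩)
          (by rw [e1]; exact ⟨k', by omega, h2, h3⟩)
        have hlong := c.long k (by omega)
        have u1 := A.dist_triangle (z k) (η s) (z (k + 1))
        have u2 := hη 0 s (Nat.zero_le _) hs
        rw [e0] at u2
        omega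
      · have : k' = k + 1 := by omega
        rwa [← this]
    have t4 := A.dist_triangle v' (σ (D - D0 ν C)) v''
    rw [A.dist_comm v' (σ (D - D0 ν C))] at t4
    have := c.junc k hkm v' hv'k v'' hv''k (by omega)
    unfold D0 at *
    omega

/-- If a path stays `B`-close to a chain, with `B` small compared to the length of the pieces,
then it stays close to the chain with a constant independent of `B`. -/
theorem lemmaA (c : Chain A ν C l m Q z) {i j : ℕ} (hjm : j ≤ m + 1)
    (hgood : ∀ i' j', i ≤ i' → i' < j' → j' ≤ j → j' - i' < j - i →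
      GoodAt A 3 (ν 7) (UU Q i' j')) (hl : 2 * D0 ν C + ν 7 < l)
    {K B : ℕ} (hB : 6 * (3 * B + 1 + D0 ν C) ≤ l) {n : ℕ} {p : ℕ → G}
    (hp : IsPath A K n p) {a b : ℕ} (hia : i ≤ a) (hab : a ≤ b) (hbj : b < j) (h0 : p 0 ∈ Q a)
    (hn : p n ∈ Q b) (hclose : ∀ t ≤ n, ∃ v ∈ UU Q i j, A.dist (p t) v ≤ B) :
    ∀ t ≤ n, ∃ v ∈ UU Q a (b + 1), A.dist (p t) v ≤ ν (2 * K + 1) := by
  classical
  set B' := 3 * B + 1 + D0 ν C with hB'
  -- the path passes near the junctions
  have step1 : ∀ k, a ≤ k → k < b → ∃ t ≤ n, A.dist (p t) (z k) ≤ B' := by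
    intro k hak hkb
    have hne : ((Finset.range (n + 1)).filter
        fun t => ∃ v ∈ UU Q i (k + 1), A.dist (p t) v ≤ B).Nonempty := by
      refine ⟨0, ?_⟩
      rw [Finset.mem_filter]
      exact ⟨by simp, p 0, ⟨a, hia, by omega, h0⟩, by simp⟩
    set t := Finset.max' _ hne with ht
    have htm := Finset.max'_mem _ hne
    rw [← ht, Finset.mem_filter, Finset.mem_range] at htm
    obtain ⟨htn, v', hv', hvd'⟩ := htm
    have htn' : t ≤ n := by omega
    have hmax : ∀ s, t < s → s ≤ n → ¬ ∃ v ∈ UU Q i (k + 1), A.dist (p s) v ≤ B := by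
      intro s hs hsn hcon
      have hmem : s ∈ (Finset.range (n + 1)).filter
          fun t => ∃ v ∈ UU Q i (k + 1), A.dist (p t) v ≤ B := by
        rw [Finset.mem_filter, Finset.mem_range]
        exact ⟨by omega, hcon⟩
      have := Finset.le_max' _ s hmem
      omega
    obtain ⟨v'', hv'', hvd''⟩ : ∃ v'' ∈ UU Q (k + 1) j, A.dist (p t) v'' ≤ B + 1 := by
      rcases Nat.eq_or_lt_of_le htn' with h | h
      · refine ⟨p n, ⟨b, by omega, hbj, hn⟩, ?_⟩
        rw [h]; simp
      · obtain ⟨v'', ⟨k', h1, h2, h3⟩, hd⟩ := hclose (t + 1) (by omega)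
        refine ⟨v'', ⟨k', ?_, h2, h3⟩, ?_⟩
        · by_contra hlt
          exact hmax (t + 1) (by omega) (by omega) ⟨v'', ⟨k', h1, by omega, h3⟩, hd⟩
        · have t1 := A.dist_triangle (p t) (p (t + 1)) v''
          have t2 := (hp t (t + 1) (by omega) (by omega)).1
          omega
    obtain ⟨η, hη, e0, e1⟩ := exists_geo A v' v''
    obtain ⟨s, hs, hsd⟩ := lemmaQ c hl (j - i) i j (by omega) hjm hgood k (by omega) (by omega)
      _ η hη (by rw [e0]; exact hv') (by rw [e1]; exact hv'')
    refine ⟨t, htn', ?_⟩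
    have u1 := hη 0 s (Nat.zero_le _) hs
    rw [e0] at u1
    have u2 := A.dist_triangle v' (p t) v''
    rw [A.dist_comm v' (p t)] at u2
    have u3 := A.dist_triangle (p t) v' (z k)
    have u4 := A.dist_triangle v' (η s) (z k)
    omega
  -- nearest points
  have step2 : ∀ k, ∃ t ≤ n, ∀ s ≤ n, A.dist (p t) (z k) ≤ A.dist (p s) (z k) := by
    intro k
    obtain ⟨t, ht, hmin⟩ := Finset.exists_min_image (Finset.range (n + 1))
      (fun i => A.dist (p i) (z k)) ⟨0, by simp⟩
    rw [Finset.mem_range] at ht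
    exact ⟨t, by omega, fun s hs => hmin s (Finset.mem_range.2 (by omega))⟩
  choose τ hτn hτmin using step2
  have hτB : ∀ k, a ≤ k → k < b → A.dist (p (τ k)) (z k) ≤ B' := by
    intro k h1 h2
    obtain ⟨t, ht, hd⟩ := step1 k h1 h2
    exact (hτmin k t ht).trans hd
  intro t ht
  -- the breakpoints
  set T : ℕ → ℕ := fun k => if k = a then 0 else if k = b + 1 then n else τ (k - 1) with hT
  have hTn : ∀ k, T k ≤ n := by
    intro k
    simp only [hT]
    split_ifs
    · exact Nat.zero_le _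
    · exact le_rfl
    · exact hτn _
  have hne : ((Finset.Icc a b).filter fun k => T k ≤ t).Nonempty := by
    refine ⟨a, ?_⟩
    rw [Finset.mem_filter, Finset.mem_Icc]
    exact ⟨⟨le_rfl, hab⟩, by simp [hT]⟩
  set k := Finset.max' _ hne with hk
  have hkm := Finset.max'_mem _ hne
  rw [← hk, Finset.mem_filter, Finset.mem_Icc] at hkm
  obtain ⟨⟨hak, hkb⟩, hTk⟩ := hkm
  have hTk1 : t ≤ T (k + 1) := by
    rcases Nat.eq_or_lt_of_le hkb with h | h
    · have : T (k + 1) = n := by
        have h2 : k + 1 = b + 1 := by omega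
        have h3 : ¬ (b + 1 = a) := by omega
        simp only [hT, h2, h3, if_true, if_false]
      rw [this]; exact ht
    · by_contra hcon
      have hmem : k + 1 ∈ (Finset.Icc a b).filter fun k => T k ≤ t := by
        rw [Finset.mem_filter, Finset.mem_Icc]
        exact ⟨⟨by omega, by omega⟩, by omega⟩
      have := Finset.le_max' _ (k + 1) hmem
      omega
  -- left end
  obtain ⟨Dx, σx, hσx, x1, x0, hDx, nx⟩ : ∃ (Dx : ℕ) (σx : ℕ → G), IsGeo A Dx σx ∧
      σx Dx = p (T k) ∧ σx 0 ∈ Q k ∧ (Dx = 0 ∨ (a < k ∧ σx 0 = z (k - 1) ∧ Dx ≤ B')) ∧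
      ∀ s ≤ n, Dx ≤ A.dist (σx 0) (p s) := by
    rcases Nat.eq_or_lt_of_le hak with h | h
    · refine ⟨0, fun _ => p (T k), by intro i j _ hj; simp; omega, rfl, ?_, Or.inl rfl,
        fun s _ => Nat.zero_le _⟩
      have : T k = 0 := by simp [hT, ← h]
      simp only [this]
      rw [← h]; exact h0
    · have hTk' : T k = τ (k - 1) := by
        have h1 : ¬ (k = a) := by omega
        have h2 : ¬ (k = b + 1) := by omega
        simp [hT, h1, h2]
      obtain ⟨σ, hσ, e0, e1⟩ := exists_geo A (z (k - 1)) (p (T k))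
      refine ⟨A.dist (z (k - 1)) (p (T k)), σ, hσ, e1, ?_, Or.inr ⟨h, e0, ?_⟩, ?_⟩
      · rw [e0]
        have := c.memR (k - 1) (by omega)
        have e : k - 1 + 1 = k := by omega
        rwa [e] at this
      · rw [A.dist_comm, hTk']
        exact hτB (k - 1) (by omega) (by omega)
      · intro s hs
        rw [e0, A.dist_comm, A.dist_comm (z (k - 1)), hTk']
        exact hτmin (k - 1) s hs
  obtain ⟨Dy, σy, hσy, y0, y1, hDy, ny⟩ : ∃ (Dy : ℕ) (σy : ℕ → G), IsGeo A Dy σy ∧
      σy 0 = p (T (k + 1)) ∧ σy Dy ∈ Q k ∧ (Dy = 0 ∨ (k < b ∧ σy Dy = z k ∧ Dy ≤ B')) ∧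
      ∀ s ≤ n, Dy ≤ A.dist (p s) (σy Dy) := by
    rcases Nat.eq_or_lt_of_le hkb with h | h
    · refine ⟨0, fun _ => p (T (k + 1)), by intro i j _ hj; simp; omega, rfl, ?_, Or.inl rfl,
        fun s _ => Nat.zero_le _⟩
      have : T (k + 1) = n := by
        have h2 : k + 1 = b + 1 := by omega
        have h3 : ¬ (b + 1 = a) := by omega
        simp only [hT, h2, h3, if_true, if_false]
      simp only [this]
      rw [h]; exact hn
    · have hTk' : T (k + 1) = τ k := by
        have h1 : ¬ (k + 1 = a) := by omega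
        have h2 : ¬ (k + 1 = b + 1) := by omega
        simp only [hT, h1, h2, if_false]
        congr 1
      obtain ⟨σ, hσ, e0, e1⟩ := exists_geo A (p (T (k + 1))) (z k)
      refine ⟨A.dist (p (T (k + 1))) (z k), σ, hσ, e0, ?_, Or.inr ⟨h, e1, ?_⟩, ?_⟩
      · rw [e1]
        exact c.memL k (by omega)
      · rw [hTk']
        exact hτB k (by omega) (by omega)
      · intro s hs
        rw [e1, hTk']
        exact hτmin k s hs
  -- the middle path
  have hTkk : T k ≤ T (k + 1) := hTk.trans hTk1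
  have hmid : IsPath A K (T (k + 1) - T k) (fun s => p (T k + s)) :=
    hp.shift (by have := hTn (k + 1); omega)
  obtain ⟨q, hq, q1, q2, q3⟩ := near_both hmid hσx hσy (by simpa using x1)
    (by rw [y0]; congr 1; omega) (by
      intro s hs
      exact nx (T k + s) (by have := hTn (k + 1); omega)) (by
      intro s hs
      exact ny (T k + s) (by have := hTn (k + 1); omega)) (by
      rcases hDx with h | ⟨h1, h2, h3⟩
      · exact Or.inl h
      rcases hDy with h' | ⟨h1', h2', h3'⟩
      · exact Or.inr (Or.inl h')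
      right; right
      have hlong := c.long (k - 1) (by omega)
      have e : k - 1 + 1 = k := by omega
      rw [e] at hlong
      have u1 := A.dist_triangle (z (k - 1)) (p (T k)) (z k)
      have u2 := A.dist_triangle (p (T k)) (p (T (k + 1))) (z k)
      have u3 := hσx 0 Dx (Nat.zero_le _) le_rfl
      rw [h2, x1] at u3
      have u4 := hσy 0 Dy (Nat.zero_le _) le_rfl
      rw [h2', y0] at u4
      have e2 : T k + (T (k + 1) - T k) = T (k + 1) := by omega
      simp only [Nat.add_zero, e2]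
      omega)
  obtain ⟨v, hv, hd⟩ := c.morse k (by omega) (2 * K + 1) _ q hq
    (by rw [q1 0 (Nat.zero_le _)]; exact x0) (by rw [q3 Dy le_rfl]; exact y1)
    (Dx + (t - T k)) (by omega)
  rw [q2 (t - T k) (by omega)] at hd
  have e2 : T k + (t - T k) = t := by omega
  rw [e2] at hd
  exact ⟨v, ⟨k, hak, by omega, hv⟩, hd⟩

/-- Upgrading the constant of goodness. -/
theorem upgrade (c : Chain A ν C l m Q z) {i j : ℕ} (hjm : j ≤ m + 1)
    (hgood : ∀ i' j', i ≤ i' → i' < j' → j' ≤ j → j' - i' < j - i →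
      GoodAt A 3 (ν 7) (UU Q i' j')) (hl : 2 * D0 ν C + ν 7 < l)
    {K B : ℕ} (hB : 6 * (3 * B + 1 + D0 ν C) ≤ l) (h : GoodAt A K B (UU Q i j)) :
    GoodAt A K (ν (2 * K + 1)) (UU Q i j) := by
  intro n p hp h0 hn t ht
  have hclose := h n p hp h0 hn
  obtain ⟨a, ha1, ha2, ha3⟩ := h0
  obtain ⟨b, hb1, hb2, hb3⟩ := hn
  rcases le_total a b with hab | hab
  · obtain ⟨v, hv, hd⟩ := lemmaA c hjm hgood hl hB hp ha1 hab hb2 ha3 hb3 hclose t ht
    exact ⟨v, UU_mono ha1 (by omega) hv, hd⟩
  · obtain ⟨v, hv, hd⟩ := lemmaA c hjm hgood hl hB hp.reverse hb1 hab ha2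
      (by simpa using hb3) (by simpa using ha3) (fun s hs => hclose (n - s) (by omega)) (n - t)
      (by omega)
    have e : n - (n - t) = t := by omega
    simp only [e] at hd
    exact ⟨v, UU_mono hb1 (by omega) hv, hd⟩

/-- The main induction. -/
theorem lemmaZ (c : Chain A ν C l m Q z) (hm : 1 ≤ m) {K : ℕ} (hK : 15 ≤ K)
    (hl0 : 2 * D0 ν C + ν 7 < l) (hl : 6 * (3 * ν (2 * K + 1) + 1 + D0 ν C) ≤ l)
    (hgood : ∀ i j, i < j → j ≤ m → j - i < m → GoodAt A K (ν (2 * K + 1)) (UU Q i j)) :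
    ∀ d i j, j = i + d → 1 ≤ d → j ≤ m + 1 → ∀ K', 4 * K' + 3 ≤ K →
      GoodAt A K' (ν (2 * K' + 1)) (UU Q i j) := by
  intro d
  induction d using Nat.strong_induction_on with
  | _ d ih =>
    intro i j hj hd hjm K' hK'
    have h3 : ∀ i' j', i ≤ i' → i' < j' → j' ≤ j → j' - i' < j - i →
        GoodAt A 3 (ν 7) (UU Q i' j') := fun i' j' a1 a2 a3 a4 =>
      ih (j' - i') (by omega) i' j' (by omega) (by omega) (by omega) 3 (by omega)
    have hνK : ∀ a, a ≤ K → ν (2 * a + 1) ≤ ν (2 * K + 1) := fun a ha => c.mono (by omega)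
    have hνK' : ∀ a, a ≤ K → ν a ≤ ν (2 * K + 1) := fun a ha => c.mono (by omega)
    rcases Nat.eq_or_lt_of_le hd with h1 | h1
    · have : j = i + 1 := by omega
      rw [this, UU_single]
      exact (c.morse i (by omega) K').monoB (c.mono (by omega))
    refine upgrade c hjm h3 hl0 hl ?_
    rcases Nat.lt_or_ge m j with hjm' | hjm'
    · -- `j = m + 1`
      have hj' : j = m + 1 := by omega
      have him : i < m := by omega
      have hU : GoodAt A (2 * K' + 1) (ν (2 * K + 1)) (UU Q i m) := by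
        rcases Nat.eq_zero_or_pos i with hi | hi
        · subst hi
          rcases Nat.eq_or_lt_of_le hm with hm1 | hm1
          · rw [← hm1, show (1 : ℕ) = 0 + 1 from rfl, UU_single]
            exact (c.morse 0 (by omega) _).monoB (hνK' _ (by omega))
          · rw [← UU_union (Q := Q) (i := 0) (k := 1) (j := m) (by omega) (by omega)]
            refine good_union (z := z 0) ?_ ?_ ⟨0, le_rfl, by omega, c.memL 0 (by omega)⟩
              ⟨1, le_rfl, by omega, c.memR 0 (by omega)⟩
            · exact (hgood 0 1 (by omega) (by omega) (by omega)).monoK (by omega)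
            · exact (hgood 1 m (by omega) (by omega) (by omega)).monoK (by omega)
        · exact (hgood i m him le_rfl (by omega)).monoK (by omega)
      rw [← UU_union (Q := Q) (i := i) (k := m) (j := j) (by omega) (by omega), hj']
      refine good_union (z := z (m - 1)) hU ?_ ⟨m - 1, by omega, by omega, c.memL _ (by omega)⟩ ?_
      · rw [UU_single]
        exact (c.morse m le_rfl _).monoB (hνK' _ (by omega))
      · rw [UU_single]
        have := c.memR (m - 1) (by omega)
        have e : m - 1 + 1 = m := by omega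
        rwa [e] at this
    · rcases Nat.lt_or_ge (j - i) m with hji | hji
      · exact (hgood i j (by omega) hjm' hji).monoK (by omega)
      · -- `i = 0`, `j = m`
        have hi : i = 0 := by omega
        have hj' : j = m := by omega
        subst hi
        subst hj'
        rw [← UU_union (Q := Q) (i := 0) (k := 1) (j := j) (by omega) (by omega)]
        refine good_union (z := z 0) ?_ ?_ ⟨0, le_rfl, by omega, c.memL 0 (by omega)⟩
          ⟨1, le_rfl, by omega, c.memR 0 (by omega)⟩
        · exact (hgood 0 1 (by omega) (by omega) (by omega)).monoK (by omega)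
        · exact (hgood 1 j (by omega) (by omega) (by omega)).monoK (by omega)

/-- Any chain is good, with some constants. -/
theorem chain_good (c : Chain A ν C l m Q z) :
    ∀ d i j, j = i + d → 1 ≤ d → j ≤ m + 1 → ∀ K', ∃ B, GoodAt A K' B (UU Q i j) := by
  intro d
  induction d with
  | zero => intro i j _ h; omega
  | succ d ih =>
    intro i j hj _ hjm K'
    rcases Nat.eq_zero_or_pos d with hd | hd
    · have : j = i + 1 := by omega
      rw [this, UU_single]
      exact ⟨_, c.morse i (by omega) K'⟩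
    · obtain ⟨B, hB⟩ := ih i (j - 1) (by omega) hd (by omega) (2 * K' + 1)
      have hQ := c.morse (j - 1) (by omega) (2 * K' + 1)
      refine ⟨max B (ν (2 * K' + 1)), ?_⟩
      have e : j - 1 + 1 = j := by omega
      have hU : UU Q (j - 1) j = Q (j - 1) := by
        rw [← UU_single (Q := Q) (i := j - 1), e]
      rw [← UU_union (Q := Q) (i := i) (k := j - 1) (j := j) (by omega) (by omega), hU]
      refine good_union (z := z (j - 2)) (hB.monoB (le_max_left _ _))
        (hQ.monoB (le_max_right _ _)) ⟨j - 2, by omega, by omega, c.memL _ (by omega)⟩ ?_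
      have := c.memR (j - 2) (by omega)
      have e : j - 2 + 1 = j - 1 := by omega
      rwa [e] at this

end Pool.Agent.TH98.SC
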