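import Pool.Agent.TH98.SC.Count
import Pool.Agent.TH98.SC.Chain

/-! # The letters -/

set_option autoImplicit false

namespace Pool.Agent.TH98.SC

open Pool.Agent.H659R3.MorseLim Filter

variable {G : Type} [Group G]

/-- Letters of the free group on `Bool`. -/
abbrev Lt := Bool × Bool

/-- The inverse letter. -/
def Lt.bar (x : Lt) : Lt := (x.1, !x.2)

/-- The data attached to the letters: group elements `φ x`, Morse sets `P x` joining `1` to `φ x`
and Morse rays `E x`. -/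
structure Alph (A : FinGen G) (ν : ℕ → ℕ) (C' C₁ l : ℕ) where
  /-- the group elements -/
  φ : Lt → G
  /-- the pieces -/
  P : Lt → Set G
  /-- the rays -/
  E : Lt → ℕ → G
  φ_bar : ∀ x, φ (Lt.bar x) = (φ x)⁻¹
  P_bar : ∀ x v, v ∈ P (Lt.bar x) ↔ φ x * v ∈ P x
  one_mem : ∀ x, 1 ∈ P x
  φ_mem : ∀ x, φ x ∈ P x
  morseP : ∀ x, MSet A ν (P x)
  morseE : ∀ x, MSet A ν (insert 1 (Set.range (E x)))
  geoE : ∀ x, GeoOn A Set.univ (E x)
  div : ∀ x y, x ≠ y → ∀ v ∈ P x, ∀ v' ∈ P y, A.dist v v' ≤ 2 * ν 7 → A.dist v 1 ≤ C'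
  divE : ∀ x y, x ≠ y → ∀ v ∈ P x, ∀ v' ∈ insert 1 (Set.range (E y)), A.dist v v' ≤ 2 * ν 7 →
    A.dist v 1 ≤ C'
  long : ∀ x, l ≤ A.len (φ x)
  fellowP : ∀ x n' η, IsGeo A n' η → A.dist (η 0) 1 ≤ D0 ν C' → A.dist (η n') (φ x) ≤ D0 ν C' →
    ∀ v ∈ P x, ∃ i ≤ n', A.dist v (η i) ≤ C₁
  fellowE : ∀ x n' η n, IsGeo A n' η → A.dist (η 0) 1 ≤ D0 ν C' → η n' = E x n →
    ∀ s ≤ n, ∃ i ≤ n', A.dist (E x s) (η i) ≤ C₁

variable {A : FinGen G}

theorem Dvg.symm {E E' : ℕ → G} (hE : GeoOn A Set.univ E) (hE' : GeoOn A Set.univ E')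
    (h : Dvg A E E') : Dvg A E' E := by
  intro C
  obtain ⟨C', hC'⟩ := h C
  refine ⟨A.dist (E' 0) (E 0) + C' + C, fun s s' hd => ?_⟩
  have h1 := hC' s' s (by rwa [A.dist_comm])
  have h2 := hE' 0 trivial s trivial (Nat.zero_le _)
  have h3 := hE 0 trivial s' trivial (Nat.zero_le _)
  have t1 := A.dist_triangle (E' 0) (E 0) (E' s)
  have t2 := A.dist_triangle (E 0) (E s') (E' s)
  rw [A.dist_comm (E s') (E' s)] at t2
  omega

theorem Dvg.left {E E' : ℕ → G} (h : Dvg A E E') (g : G) :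
    Dvg A (fun n => g * E n) (fun n => g * E' n) := by
  intro C
  obtain ⟨C', hC'⟩ := h C
  refine ⟨C', fun s s' hd => ?_⟩
  simp only [A.dist_mul_left] at hd
  exact hC' s s' hd

/-- Divergence of finite pieces which start along diverging rays. -/
theorem div_piece {ν : ℕ → ℕ} {σ σ' E E' : ℕ → G} {N L C₂ C₃ : ℕ} {T' : Set ℕ}
    (hσ : IsGeo A N σ) (hσ' : GeoOn A T' σ') (hM : MSet A ν (σ' '' T')) (h0T : 0 ∈ T')
    (h1 : ∀ i ≤ L, σ i = E i) (h2 : ∀ i ≤ L, σ' i = E' i)
    (h3 : ∀ s s', A.dist (E s) (E' s') ≤ ν (1 + 2 * C₂ * 2) → s ≤ C₃)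
    (hL : C₂ + C₃ + 1 + ν (1 + 2 * C₂ * 2) ≤ L) (h0 : A.dist (σ 0) (σ' 0) ≤ C₂) :
    ∀ s ≤ N, ∀ s' ∈ T', A.dist (σ s) (σ' s') ≤ C₂ → s ≤ C₃ := by
  intro s hs s' hs' hd
  set s₀ := min s (C₃ + 1) with hs₀
  obtain ⟨y, ⟨u, huT, rfl⟩, hy⟩ := (hM (1 + 2 * C₂ * 2)).near (K := 1) le_rfl
    ((hσ.mono hs).isPath le_rfl)
    ⟨σ' 0, ⟨0, h0T, rfl⟩, h0⟩ ⟨σ' s', ⟨s', hs', rfl⟩, hd⟩ (min_le_left s (C₃ + 1))
  rw [← hs₀] at hy
  have hs₀C : s₀ ≤ C₃ + 1 := min_le_right _ _
  have hs₀s : s₀ ≤ s := min_le_left _ _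
  have hu : u ≤ L := by
    have a1 := hσ' 0 h0T u huT (Nat.zero_le _)
    have a2 := hσ 0 s₀ (Nat.zero_le _) (hs₀s.trans hs)
    have t1 := A.dist_triangle (σ' 0) (σ 0) (σ' u)
    have t2 := A.dist_triangle (σ 0) (σ s₀) (σ' u)
    rw [A.dist_comm (σ' 0) (σ 0)] at t1
    omega
  rw [h1 s₀ (by omega), h2 u hu] at hy
  have := h3 _ _ hy
  omega

/-- The construction of the letters. -/
theorem exists_alph {ν₀ : ℕ → ℕ} {r : ℕ → G} (hr : GeoOn A Set.univ r)
    (hM : MSet A ν₀ (Set.range r)) {β : Bool → ℕ → G}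
    (hβ : ∀ L, ∀ᶠ n in (UF : Filter ℕ), L ≤ n ∧
      ∀ i ≤ L, (r n)⁻¹ * r (n + i) = β true i ∧ (r n)⁻¹ * r (n - i) = β false i)
    {g : G} (hg : ∀ b b', Dvg A (fun n => g * β b n) (β b')) :
    ∃ (ν : ℕ → ℕ) (C' C₁ : ℕ), Monotone ν ∧ ∀ l, Nonempty (Alph A ν C' C₁ l) := by
  classical
  have hM' : MSet A ν₀ (r '' Set.univ) := by rwa [Set.image_univ]
  have hβg := beta_geo hr hβ
  have hβM := beta_morse hr hβ hM
  have hβ0 : ∀ b, β b 0 = 1 := beta_zero hβ
  set ν₁ := sub ν₀ with hν₁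
  set Cg := A.len g with hCg
  set ν₂ : ℕ → ℕ := fun K => ν₁ (max K 1 + 2 * Cg * (max K 1 + 1)) + Cg with hν₂
  set ν := env ν₂ with hν
  -- rays
  set cc : Bool → G := fun b => if b then g else 1 with hcc
  have hccl : ∀ b, A.len (cc b) ≤ Cg := by
    intro b
    cases b
    · simp [hcc]
    · simp only [hcc, if_true]
      exact le_rfl
  set E : Lt → ℕ → G := fun x n => cc x.1 * β x.2 n with hE
  have hEg : ∀ x, GeoOn A Set.univ (E x) := by
    intro x u _ u' _ huu
    simp only [hE, A.dist_mul_left]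
    exact hβg x.2 u trivial u' trivial huu
  have hdvg : ∀ x y : Lt, x ≠ y → Dvg A (E x) (E y) := by
    have opp : ∀ b b' : Bool, b ≠ b' → Dvg A (β b) (β b') := by
      intro b b' hbb C
      refine ⟨C, fun s s' hd => ?_⟩
      cases b <;> cases b'
      · exact absurd rfl hbb
      · rw [A.dist_comm, beta_opp hr hβ] at hd; omega
      · rw [beta_opp hr hβ] at hd; omega
      · exact absurd rfl hbb
    rintro ⟨c, b⟩ ⟨c', b'⟩ hxy
    rcases eq_or_ne c c' with hc | hc
    · subst hc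
      have : b ≠ b' := by
        rintro rfl; exact hxy rfl
      exact (opp b b' this).left _
    · cases c <;> cases c'
      · exact absurd rfl hc
      · have := (hg b' b).symm (hEg (true, b')) (hβg b)
        have h2 : E (false, b) = β b := by funext n; simp [hE, hcc]
        rw [h2]; exact this
      · have h2 : E (false, b') = β b' := by funext n; simp [hE, hcc]
        have h3 : E (true, b) = fun n => g * β b n := by funext n; simp [hE, hcc]
        rw [h2, h3]
        exact hg b b'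
      · exact absurd rfl hc
  -- constants
  set C₂ := 2 * ν 7 + 2 * Cg with hC₂
  obtain ⟨C₃, hC₃⟩ : ∃ C₃, ∀ x y : Lt, x ≠ y → ∀ s s',
      A.dist (E x s) (E y s') ≤ ν₁ (1 + 2 * C₂ * 2) → s ≤ C₃ := by
    have hex : ∀ z : Lt × Lt, ∃ C₃, z.1 ≠ z.2 → ∀ s s',
        A.dist (E z.1 s) (E z.2 s') ≤ ν₁ (1 + 2 * C₂ * 2) → s ≤ C₃ := by
      intro z
      by_cases hz : z.1 = z.2
      · exact ⟨0, fun h => absurd hz h⟩
      · obtain ⟨C₃, h⟩ := hdvg _ _ hz (ν₁ (1 + 2 * C₂ * 2))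
        exact ⟨C₃, fun _ => h⟩
    choose f hf using hex
    refine ⟨Finset.univ.sup f, fun x y hxy s s' hd => (hf (x, y) hxy s s' hd).trans ?_⟩
    exact Finset.le_sup (f := f) (Finset.mem_univ _)
  set C' := C₃ + 2 * Cg with hC'
  set L := C₂ + C₃ + 1 + ν₁ (1 + 2 * C₂ * 2) with hL
  set D₄ := D0 ν C' + Cg with hD₄
  set C₁ := 3 * max D₄ (ν₁ (1 + 2 * D₄ * 2)) + 1 + Cg with hC₁
  refine ⟨ν, C', C₁, env_mono _, fun l => ?_⟩
  -- the segment
  obtain ⟨n, hnL, hn⟩ := (hβ L).exists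
  obtain ⟨n', ⟨hnL', hn'⟩, hnn'⟩ := ((hβ L).and (ev_ge (n + (l + 2 * Cg + L)))).exists
  set N := n' - n with hN
  set α : ℕ → G := fun i => (r n)⁻¹ * r (n + i) with hα
  set a : G := (r n)⁻¹ * r n' with ha
  have hαN : α N = a := by
    simp only [hα, ha]
    congr 2; omega
  have hα0 : α 0 = 1 := by simp [hα]
  have hαg : IsGeo A N α := by
    intro i j hij hj
    simp only [hα, A.dist_mul_left]
    rw [hr (n + i) trivial (n + j) trivial (by omega)]
    omega
  have hαL : ∀ i ≤ L, α i = β true i := fun i hi => (hn i hi).1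
  have hαL' : ∀ i ≤ L, a⁻¹ * α (N - i) = β false i := by
    intro i hi
    rw [← (hn' i hi).2]
    simp only [hα, ha]
    have : n + (N - i) = n' - i := by omega
    rw [this]; group
  have haN : A.len a = N := by
    have := hαg 0 N (Nat.zero_le _) le_rfl
    rw [hα0, hαN, A.dist_one_left] at this
    omega
  have hseg : MSet A ν₁ (r '' Set.Icc n n') := subsegment hr hM' (fun _ _ _ => trivial) (by omega)
  -- the geodesics of the letters
  set σ : Lt → ℕ → G := fun x i => cc x.1 * (if x.2 then α i else a⁻¹ * α (N - i)) with hσ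
  set φ : Lt → G := fun x => cc x.1 * (if x.2 then a else a⁻¹) * (cc x.1)⁻¹ with hφ
  have hσg : ∀ x, IsGeo A N (σ x) := by
    rintro ⟨c, b⟩
    cases b
    · exact (hαg.reverse.left a⁻¹).left (cc c)
    · exact hαg.left (cc c)
  have hσ0 : ∀ x, σ x 0 = cc x.1 := by
    rintro ⟨c, b⟩
    cases b
    · simp [hσ, hαN]
    · simp [hσ, hα0]
  have hσN : ∀ x, A.dist (φ x) (σ x N) ≤ Cg := by
    intro x
    refine le_trans ?_ (hccl x.1)
    rw [← A.len_inv (cc x.1), FinGen.dist, ← A.len_inv]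
    apply le_of_eq
    congr 1
    rcases x with ⟨c, b⟩
    cases b
    · simp only [hσ, hφ, Bool.false_eq_true, if_false, Nat.sub_self, hα0]
      group
    · simp only [hσ, hφ, if_true, hαN]
      group
  have hσL : ∀ x, ∀ i ≤ L, σ x i = E x i := by
    rintro ⟨c, b⟩ i hi
    cases b
    · simp [hσ, hE, hαL' i hi]
    · simp [hσ, hE, hαL i hi]
  have hσM : ∀ x, MSet A ν₁ (σ x '' Set.Iic N) := by
    rintro ⟨c, b⟩
    cases b
    · have h1 := hseg.left (cc c * a⁻¹ * (r n)⁻¹)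
      have e : (fun x => cc c * a⁻¹ * (r n)⁻¹ * x) '' (r '' Set.Icc n n') =
          σ (c, false) '' Set.Iic N := by
        ext v
        simp only [Set.mem_image, Set.mem_Icc, Set.mem_Iic, hσ, hα, Bool.false_eq_true, if_false]
        constructor
        · rintro ⟨_, ⟨i, ⟨h1, h2⟩, rfl⟩, rfl⟩
          refine ⟨n' - i, by omega, ?_⟩
          have : n + (N - (n' - i)) = i := by omega
          rw [this]; group
        · rintro ⟨i, hi, rfl⟩
          exact ⟨_, ⟨n + (N - i), ⟨by omega, by omega⟩, rfl⟩, by group⟩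
      rwa [e] at h1
    · have h1 := hseg.left (cc c * (r n)⁻¹)
      have e : (fun x => cc c * (r n)⁻¹ * x) '' (r '' Set.Icc n n') =
          σ (c, true) '' Set.Iic N := by
        ext v
        simp only [Set.mem_image, Set.mem_Icc, Set.mem_Iic, hσ, hα, if_true]
        constructor
        · rintro ⟨_, ⟨i, ⟨h1, h2⟩, rfl⟩, rfl⟩
          refine ⟨i - n, by omega, ?_⟩
          have : n + (i - n) = i := by omega
          rw [this]; group
        · rintro ⟨i, hi, rfl⟩
          exact ⟨_, ⟨n + i, ⟨by omega, by omega⟩, rfl⟩, by group⟩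
      rwa [e] at h1
  have hEM : ∀ x, MSet A ν₁ (E x '' Set.univ) := by
    intro x
    have h1 := (hβM x.2).left (cc x.1)
    have e : (fun y => cc x.1 * y) '' (Set.range (β x.2)) = E x '' Set.univ := by
      ext v
      simp only [Set.mem_image, Set.mem_range, Set.mem_univ, true_and, hE]
      constructor
      · rintro ⟨_, ⟨i, rfl⟩, rfl⟩; exact ⟨i, rfl⟩
      · rintro ⟨i, rfl⟩; exact ⟨_, ⟨i, rfl⟩, rfl⟩
    rwa [e] at h1
  have stab : ∀ {Y Y' : Set G}, MSet A ν₁ Y → (∀ y' ∈ Y', ∃ y ∈ Y, A.dist y' y ≤ Cg) →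
      (∀ y ∈ Y, ∃ y' ∈ Y', A.dist y' y ≤ Cg) → MSet A ν Y' := by
    intro Y Y' h h1 h2
    refine MSet.env fun K => ?_
    exact ((h _).stable (K := max K 1) (le_max_right _ _) h1 h2).monoK (le_max_left _ _)
  set P : Lt → Set G := fun x => insert 1 (insert (φ x) (σ x '' Set.Iic N)) with hP
  have hE0 : ∀ x, A.dist 1 (E x 0) ≤ Cg := by
    intro x
    simp only [hE, hβ0, mul_one, A.dist_one_left]
    exact hccl x.1
  have hPσ : ∀ x, ∀ v ∈ P x, ∃ s ≤ N, A.dist v (σ x s) ≤ Cg := by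
    intro x v hv
    rcases hv with rfl | rfl | ⟨s, hs, rfl⟩
    · refine ⟨0, Nat.zero_le _, ?_⟩
      rw [hσ0, A.dist_one_left]; exact hccl x.1
    · exact ⟨N, le_rfl, hσN x⟩
    · exact ⟨s, hs, by simp⟩
  have hEσ : ∀ y, ∀ v ∈ insert 1 (Set.range (E y)), ∃ s, A.dist v (E y s) ≤ Cg := by
    intro y v hv
    rcases hv with rfl | ⟨s, rfl⟩
    · exact ⟨0, hE0 y⟩
    · exact ⟨s, by simp⟩
  have start : ∀ x y : Lt, A.dist (cc x.1) (cc y.1) ≤ C₂ := by
    intro x y
    have t := A.dist_triangle (cc x.1) 1 (cc y.1)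
    rw [A.dist_comm (cc x.1) 1, A.dist_one_left, A.dist_one_left] at t
    have := hccl x.1
    have := hccl y.1
    omega
  refine ⟨⟨φ, P, E, ?_, ?_, ?_, ?_, ?_, ?_, hEg, ?_, ?_, ?_, ?_, ?_⟩⟩
  · -- φ_bar
    rintro ⟨c, b⟩
    cases b
    · simp only [hφ, Lt.bar, Bool.not_false, if_true, Bool.false_eq_true, if_false]; group
    · simp only [hφ, Lt.bar, Bool.not_true, if_true, Bool.false_eq_true, if_false]; group
  · -- P_bar
    rintro ⟨c, b⟩ v
    have hbar : φ (Lt.bar (c, b)) = (φ (c, b))⁻¹ := by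
      cases b
      · simp only [hφ, Lt.bar, Bool.not_false, if_true, Bool.false_eq_true, if_false]; group
      · simp only [hφ, Lt.bar, Bool.not_true, if_true, Bool.false_eq_true, if_false]; group
    have hsig : ∀ i ≤ N, φ (c, b) * σ (Lt.bar (c, b)) i = σ (c, b) (N - i) := by
      intro i hi
      have : N - (N - i) = i := by omega
      cases b
      · simp only [hφ, hσ, Lt.bar, Bool.not_false, if_true, Bool.false_eq_true, if_false, this]
        group
      · simp only [hφ, hσ, Lt.bar, Bool.not_true, if_true, Bool.false_eq_true, if_false]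
        group
    simp only [hP, Set.mem_insert_iff, Set.mem_image, Set.mem_Iic, hbar]
    constructor
    · rintro (rfl | rfl | ⟨i, hi, rfl⟩)
      · right; left; simp
      · left; simp
      · right; right
        exact ⟨N - i, by omega, (hsig i hi).symm⟩
    · rintro (h | h | ⟨i, hi, h⟩)
      · right; left
        exact eq_inv_of_mul_eq_one_right h
      · left
        simpa using h
      · right; right
        refine ⟨N - i, by omega, ?_⟩
        have h1 := hsig (N - i) (by omega)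
        have : N - (N - i) = i := by omega
        rw [this, h] at h1
        exact mul_left_cancel h1
  · intro x; exact Or.inl rfl
  · intro x; exact Or.inr (Or.inl rfl)
  · intro x
    refine stab (hσM x) (fun y' hy' => ?_) (fun y hy => ?_)
    · obtain ⟨s, hs, hd⟩ := hPσ x y' hy'
      exact ⟨_, ⟨s, hs, rfl⟩, hd⟩
    · exact ⟨y, Or.inr (Or.inr hy), by simp⟩
  · intro x
    refine stab (hEM x) (fun y' hy' => ?_) (fun y hy => ?_)
    · obtain ⟨s, hd⟩ := hEσ x y' hy'
      exact ⟨_, ⟨s, trivial, rfl⟩, hd⟩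
    · refine ⟨y, Or.inr ?_, by simp⟩
      obtain ⟨s, -, rfl⟩ := hy
      exact ⟨s, rfl⟩
  · -- div
    intro x y hxy v hv v' hv' hd
    obtain ⟨s, hs, hsd⟩ := hPσ x v hv
    obtain ⟨s', hs', hsd'⟩ := hPσ y v' hv'
    have t1 := A.dist_triangle (σ x s) v (σ y s')
    have t2 := A.dist_triangle v v' (σ y s')
    rw [A.dist_comm (σ x s) v] at t1
    have h1 := div_piece (hσg x) (hσg y).geoOn (hσM y) (Nat.zero_le N) (hσL x) (hσL y)
      (hC₃ x y hxy) le_rfl (by rw [hσ0, hσ0]; exact start x y) s hs s' hs' (by omega)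
    have t3 := A.dist_triangle v (σ x s) 1
    have t4 := A.dist_triangle (σ x s) (σ x 0) 1
    have a1 := hσg x 0 s (Nat.zero_le _) hs
    rw [A.dist_comm (σ x s) (σ x 0)] at t4
    rw [A.dist_comm (σ x 0) 1, A.dist_one_left, hσ0] at t4
    rw [hσ0] at a1
    have := hccl x.1
    omega
  · -- divE
    intro x y hxy v hv v' hv' hd
    obtain ⟨s, hs, hsd⟩ := hPσ x v hv
    obtain ⟨s', hsd'⟩ := hEσ y v' hv'
    have t1 := A.dist_triangle (σ x s) v (E y s')
    have t2 := A.dist_triangle v v' (E y s')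
    rw [A.dist_comm (σ x s) v] at t1
    have h1 := div_piece (hσg x) (hEg y) (hEM y) trivial (hσL x) (fun _ _ => rfl)
      (hC₃ x y hxy) le_rfl (by
        rw [hσ0]
        have : E y 0 = cc y.1 := by simp [hE, hβ0]
        rw [this]
        exact start x y) s hs s' trivial (by omega)
    have t3 := A.dist_triangle v (σ x s) 1
    have t4 := A.dist_triangle (σ x s) (σ x 0) 1
    have a1 := hσg x 0 s (Nat.zero_le _) hs
    rw [A.dist_comm (σ x s) (σ x 0)] at t4
    rw [A.dist_comm (σ x 0) 1, A.dist_one_left, hσ0] at t4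
    rw [hσ0] at a1
    have := hccl x.1
    omega
  · -- long
    intro x
    have h1 : N ≤ A.len (φ x) + 2 * Cg := by
      have h2 := hσg x 0 N (Nat.zero_le _) le_rfl
      rw [hσ0] at h2
      have t1 := A.dist_triangle (cc x.1) 1 (σ x N)
      have t2 := A.dist_triangle 1 (φ x) (σ x N)
      rw [A.dist_comm (cc x.1) 1, A.dist_one_left, A.dist_one_left] at t1
      rw [A.dist_one_left, A.dist_one_left] at t2
      have := hσN x
      have := hccl x.1
      omega
    omega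
  · -- fellowP
    intro x m η hη h0 h1 v hv
    obtain ⟨s, hs, hsd⟩ := hPσ x v hv
    obtain ⟨i, hi, hd⟩ := fellow (hσg x).geoOn (hσM x) (n := N) (D := D₄) (Nat.zero_le N)
      (le_refl N) hη (by
        rw [hσ0]
        have t := A.dist_triangle (η 0) 1 (cc x.1)
        rw [A.dist_one_left] at t
        have := hccl x.1
        omega) (by
        have t := A.dist_triangle (η m) (φ x) (σ x N)
        have := hσN x
        omega) s hs hs
    refine ⟨i, hi, ?_⟩
    have t := A.dist_triangle v (σ x s) (η i)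
    omega
  · -- fellowE
    intro x m η n hη h0 h1 s hs
    obtain ⟨i, hi, hd⟩ := fellow (hEg x) (hEM x) (n := n) (D := D₄) trivial trivial hη (by
        have t := A.dist_triangle (η 0) 1 (E x 0)
        have := hE0 x
        omega) (by rw [h1]; simp) s hs trivial
    refine ⟨i, hi, ?_⟩
    omega

end Pool.Agent.TH98.SC
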