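import Pool.Agent.TH98.SC.Limit

/-! # Counting: some translate of a bi-infinite Morse geodesic has different ends -/

set_option autoImplicit false

namespace Pool.Agent.TH98.SC

open Pool.Agent.H659R3.MorseLim Filter

variable {G : Type} [Group G] {A : FinGen G}

theorem exists_g {ν : ℕ → ℕ} {β : Bool → ℕ → G} (hβ : ∀ b, GeoOn A Set.univ (β b))
    (hβ0 : ∀ b, β b 0 = 1) (hM : ∀ b, MSet A ν (Set.range (β b)))
    {ρ : ℕ → ℕ → G} (hρ : ∀ i, GeoOn A Set.univ (ρ i)) (hρ0 : ∀ i, ρ i 0 = 1)
    (hne : ∀ i j, i ≠ j → ∃ T, ∀ s, T ≤ s → ρ i s ≠ ρ j s) :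
    ∃ g : G, ∀ b b', Dvg A (fun n => g * β b n) (β b') := by
  classical
  by_contra hcon
  push Not at hcon
  set D := ν 3 with hD
  -- tails
  have htail : ∀ g : G, ∃ b b' T, ∀ t, T ≤ t → ∃ s', A.dist (g * β b t) (β b' s') ≤ D := by
    intro g
    obtain ⟨b, b', h⟩ := hcon g
    have hE : ∀ n, IsGeo A n (fun n => g * β b n) := fun n =>
      ((hβ b).isGeo (fun _ _ => trivial)).left g
    obtain ⟨C, hC⟩ := close_of_not_dvg hE (hM b') h
    exact ⟨b, b', 2 * C, tail_close hE (hM b') hC⟩
  choose b b' T hT using htail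
  -- the balls
  set ball : ℕ → Finset G := fun R => (ball_finite A R).toFinset with hball
  have mem_ball : ∀ R g, g ∈ ball R ↔ A.len g ≤ R := by
    intro R g
    simp [hball]
  have upper : ∀ R, (ball R).card ≤ 4 * (2 * (R + D) + 1) * (ball D).card := by
    intro R
    set t := (ball R).sup T + R + D with ht
    set I := Finset.Icc (t - (R + D)) (t + (R + D)) with hI
    have hsub : ball R ⊆ (((Finset.univ : Finset (Bool × Bool)) ×ˢ (I ×ˢ ball D)).image
        fun x => β x.1.2 x.2.1 * x.2.2⁻¹ * (β x.1.1 t)⁻¹) := by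
      intro g hg
      obtain ⟨s', hs'⟩ := hT g t (by
        have := Finset.le_sup (f := T) hg
        omega)
      rw [mem_ball] at hg
      rw [Finset.mem_image]
      refine ⟨((b g, b' g), s', (g * β (b g) t)⁻¹ * β (b' g) s'), ?_, ?_⟩
      · rw [Finset.mem_product, Finset.mem_product]
        refine ⟨Finset.mem_univ _, ?_, ?_⟩
        · simp only [hI, Finset.mem_Icc]
          have a1 := (hβ (b g)) 0 trivial t trivial (Nat.zero_le _)
          have a2 := (hβ (b' g)) 0 trivial s' trivial (Nat.zero_le _)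
          rw [hβ0, A.dist_one_left] at a1 a2
          have a3 := A.dist_triangle 1 (g * β (b g) t) (β (b' g) s')
          have a4 := A.dist_triangle 1 (β (b' g) s') (g * β (b g) t)
          rw [A.dist_comm (β (b' g) s')] at a4
          simp only [A.dist_one_left] at a3 a4
          have a5 := A.len_mul_le g (β (b g) t)
          have a6 := A.len_mul_le g⁻¹ (g * β (b g) t)
          rw [A.len_inv, inv_mul_cancel_left] at a6
          omega
        · rw [mem_ball]
          exact hs'
      · simp only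
        group
    refine (Finset.card_le_card hsub).trans (Finset.card_image_le.trans ?_)
    rw [Finset.card_product, Finset.card_product]
    have c1 : (Finset.univ : Finset (Bool × Bool)).card = 4 := rfl
    have c2 : I.card ≤ 2 * (R + D) + 1 := by
      rw [hI, Nat.card_Icc]; omega
    rw [c1, mul_assoc]
    exact Nat.mul_le_mul_left 4 (Nat.mul_le_mul_right _ c2)
  -- lower bound
  set N := (ball D).card with hN
  set k := 8 * N + 1 with hk
  obtain ⟨T₀, hT₀⟩ : ∃ T₀, ∀ i < k, ∀ j < k, i ≠ j → ∀ s, T₀ ≤ s → ρ i s ≠ ρ j s := by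
    have hne' : ∀ x : ℕ × ℕ, ∃ T, x.1 ≠ x.2 → ∀ s, T ≤ s → ρ x.1 s ≠ ρ x.2 s := by
      intro x
      by_cases hx : x.1 = x.2
      · exact ⟨0, fun h => absurd hx h⟩
      · obtain ⟨T, hT⟩ := hne x.1 x.2 hx
        exact ⟨T, fun _ => hT⟩
    choose T' hT' using hne'
    refine ⟨((Finset.range k) ×ˢ (Finset.range k)).sup T', fun i hi j hj hij s hs => ?_⟩
    refine hT' (i, j) hij s (le_trans ?_ hs)
    exact Finset.le_sup (f := T') (Finset.mem_product.2 ⟨Finset.mem_range.2 hi,
      Finset.mem_range.2 hj⟩)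
  have lower : ∀ R, k * (R + 1 - T₀) ≤ (ball R).card := by
    intro R
    have hinj : Set.InjOn (fun x : ℕ × ℕ => ρ x.1 x.2)
        ((Finset.range k ×ˢ Finset.Icc T₀ R : Finset (ℕ × ℕ)) : Set (ℕ × ℕ)) := by
      rintro ⟨i, s⟩ hx ⟨j, s'⟩ hy h
      rw [Finset.mem_coe, Finset.mem_product, Finset.mem_range, Finset.mem_Icc] at hx hy
      simp only at h hx hy
      have a1 := (hρ i) 0 trivial s trivial (Nat.zero_le _)
      have a2 := (hρ j) 0 trivial s' trivial (Nat.zero_le _)
      rw [hρ0, A.dist_one_left] at a1 a2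
      have hss : s = s' := by
        rw [h] at a1; omega
      subst hss
      by_cases hij : i = j
      · rw [hij]
      · exact absurd h (hT₀ i hx.1 j hy.1 hij s hx.2.1)
    have himg : (Finset.range k ×ˢ Finset.Icc T₀ R).image (fun x : ℕ × ℕ => ρ x.1 x.2) ⊆ ball R := by
      intro g hg
      rw [Finset.mem_image] at hg
      obtain ⟨⟨i, s⟩, hx, rfl⟩ := hg
      rw [Finset.mem_product, Finset.mem_range, Finset.mem_Icc] at hx
      rw [mem_ball]
      have a1 := (hρ i) 0 trivial s trivial (Nat.zero_le _)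
      rw [hρ0, A.dist_one_left] at a1
      simp only at hx ⊢
      omega
    have := Finset.card_le_card himg
    rw [Finset.card_image_of_injOn hinj, Finset.card_product, Finset.card_range,
      Nat.card_Icc] at this
    exact this
  -- contradiction
  set R := T₀ * (8 * N + 1) + 8 * N * D + 4 * N + 1 with hR
  have h1 := (lower R).trans (upper R)
  have hRT : T₀ ≤ R + 1 := by
    rw [hR]; nlinarith [Nat.zero_le (8 * N * D), Nat.zero_le (T₀ * N)]
  have h2 : (k : ℤ) * (R + 1 - T₀) ≤ 4 * (2 * (R + D) + 1) * N := by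
    have := (by exact_mod_cast h1 :
      ((k * (R + 1 - T₀) : ℕ) : ℤ) ≤ ((4 * (2 * (R + D) + 1) * N : ℕ) : ℤ))
    rw [Nat.cast_mul, Nat.cast_sub hRT] at this
    push_cast at this ⊢
    exact this
  have h3 : (R : ℤ) = T₀ * (8 * N + 1) + 8 * N * D + 4 * N + 1 := by
    rw [hR]; push_cast; ring
  have h4 : (k : ℤ) = 8 * N + 1 := by rw [hk]; push_cast; ring
  rw [h4] at h2
  have hN0 : (0 : ℤ) ≤ N := Nat.cast_nonneg _
  nlinarith

end Pool.Agent.TH98.SC
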