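import Mathlib

/-! # Strongly sigma-compact spaces -/

set_option autoImplicit false

namespace Pool.Agent.TH98.SC

open CategoryTheory

/-- A topological space is strongly sigma-compact if it can be written as a direct limit (in the
category of topological spaces) of a countable directed family of compact spaces. -/
def StronglySigmaCompact (X : Type) [TopologicalSpace X] : Prop :=
  ∃ (J : Type) (_ : Preorder J) (_ : IsDirectedOrder J) (_ : Nonempty J) (_ : Countable J)
    (F : J ⥤ TopCat.{0}) (c : Limits.Cocone F),
    Nonempty (Limits.IsColimit c) ∧ (∀ j, CompactSpace (F.obj j)) ∧ Nonempty (c.pt ≃ₜ X)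

end Pool.Agent.TH98.SC
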