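import Pool.Agent.TH98.SC.Words

/-! # A geodesic ray along a good chain -/

set_option autoImplicit false

namespace Pool.Agent.TH98.SC

open Pool.Agent.H659R3.MorseLim Filter

variable {G : Type} [Group G] {A : FinGen G}

theorem subgeo {n : ℕ} {η : ℕ → G} (h : IsGeo A n η) {a b : ℕ} (ha : a ≤ n) (hb : b ≤ n) :
    ∃ (n' : ℕ) (η' : ℕ → G), IsGeo A n' η' ∧ η' 0 = η a ∧ η' n' = η b ∧
      ∀ i ≤ n', ∃ j ≤ n, η' i = η j := by
  rcases le_total a b with hab | hab
  · refine ⟨b - a, fun i => η (a + i), h.shift (by omega), by simp, ?_, fun i hi =>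
      ⟨a + i, by omega, rfl⟩⟩
    simp only
    congr 1; omega
  · refine ⟨a - b, fun i => η (a - i), (h.mono ha).reverse.mono (by omega), by simp, ?_,
      fun i hi => ⟨a - i, by omega, rfl⟩⟩
    simp only
    congr 1; omega

variable {ν : ℕ → ℕ} {C' C₁ l : ℕ} (D : Alph A ν C' C₁ l)

theorem exists_ray (hν : Monotone ν) {m : ℕ} {y : ℕ → Lt} (hm : 1 ≤ m) (hred : Red m y)
    (hl0 : 2 * D0 ν C' + ν 7 < l)
    (h3 : ∀ i j, i < j → j ≤ m + 1 → GoodAt A 3 (ν 7) (UU (QQ D m y) i j)) :
    ∃ γ : ℕ → G, γ 0 = 1 ∧ GeoOn A Set.univ γ ∧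
      (∀ i, ∃ v ∈ UU (QQ D m y) 0 (m + 1), A.dist (γ i) v ≤ ν 7) ∧
      (∀ v ∈ UU (QQ D m y) 0 (m + 1), ∃ i, A.dist v (γ i) ≤ max C₁ (D0 ν C')) := by
  have c := chain_of_red D hν hm hred
  set e : ℕ → G := D.E (y (m - 1)) with he
  have heg : GeoOn A Set.univ e := D.geoE _
  set u : ℕ → G := fun n => pre D.φ y m * e n with hu
  have hmem : ∀ n, u n ∈ QQ D m y m := by
    intro n
    have : ¬ m < m := lt_irrefl m
    simp only [QQ, this, if_false]
    exact ⟨e n, Or.inr ⟨n, rfl⟩, rfl⟩
  have h0mem : (1 : G) ∈ QQ D m y 0 := by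
    have : 0 < m := by omega
    simp only [QQ, this, if_true]
    exact ⟨1, D.one_mem _, by simp [pre]⟩
  choose η hη η0 η1 using fun n => exists_geo A 1 (u n)
  have hlen : ∀ n, n ≤ A.dist 1 (u n) + A.dist 1 (u 0) := by
    intro n
    have h1 : A.dist (u 0) (u n) = n := by
      simp only [hu, A.dist_mul_left]
      rw [heg 0 trivial n trivial (Nat.zero_le _)]; omega
    have t := A.dist_triangle (u 0) 1 (u n)
    rw [A.dist_comm (u 0) 1] at t
    omega
  have hlarge : ∀ L, ∀ᶠ n in (UF : Filter ℕ), L ≤ A.dist 1 (u n) := by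
    intro L
    filter_upwards [ev_ge (L + A.dist 1 (u 0))] with n hn
    have := hlen n
    omega
  obtain ⟨γ, hγ⟩ := exists_lim_seq (A := A) (η := η) (by
    intro i
    refine ⟨i, ?_⟩
    filter_upwards [hlarge i] with n hn
    have := hη n 0 i (Nat.zero_le _) hn
    rw [η0, A.dist_one_left] at this
    omega)
  have hγg : GeoOn A Set.univ γ := geoOn_lim hγ (by
    intro L
    filter_upwards [hlarge L] with n hn
    exact (hη n).mono hn)
  have hγ0 : γ 0 = 1 := by
    obtain ⟨n, hn⟩ := (hγ 0).exists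
    rw [← hn 0 le_rfl, η0]
  refine ⟨γ, hγ0, hγg, ?_, ?_⟩
  · intro i
    obtain ⟨n, h1, h2⟩ := ((hγ i).and (hlarge i)).exists
    obtain ⟨v, hv, hd⟩ := h3 0 (m + 1) (by omega) le_rfl _ (η n)
      ((hη n).isPath (by omega)) (by rw [η0]; exact ⟨0, le_rfl, by omega, h0mem⟩)
      (by rw [η1]; exact ⟨m, by omega, by omega, hmem n⟩) i h2
    rw [h1 i le_rfl] at hd
    exact ⟨v, hv, hd⟩
  · intro v hv
    -- `η n` passes near the junctions
    have pass : ∀ n k, k < m → ∃ t ≤ A.dist 1 (u n),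
        A.dist (η n t) (pre D.φ y (k + 1)) ≤ D0 ν C' := by
      intro n k hk
      exact lemmaQ c hl0 (m + 1) 0 (m + 1) (by omega) le_rfl
        (fun i' j' _ a2 a3 _ => h3 i' j' a2 a3) k (Nat.zero_le _) (by omega) _ (η n) (hη n)
        (by rw [η0]; exact ⟨0, le_rfl, by omega, h0mem⟩)
        (by rw [η1]; exact ⟨m, by omega, by omega, hmem n⟩)
    have pass' : ∀ n k, k ≤ m → ∃ t ≤ A.dist 1 (u n),
        A.dist (η n t) (pre D.φ y k) ≤ D0 ν C' := by
      intro n k hk
      rcases Nat.eq_zero_or_pos k with h | h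
      · refine ⟨0, Nat.zero_le _, ?_⟩
        rw [h, η0]; simp [pre]
      · obtain ⟨t, ht, hd⟩ := pass n (k - 1) (by omega)
        have : k - 1 + 1 = k := by omega
        rw [this] at hd
        exact ⟨t, ht, hd⟩
    have claim : ∃ n₀, ∀ n, n₀ ≤ n → ∃ i ≤ A.dist 1 (u n),
        A.dist v (η n i) ≤ max C₁ (D0 ν C') := by
      obtain ⟨k, -, hkm, w, hw, rfl⟩ := hv
      rcases Nat.lt_or_ge k m with hk | hk
      · simp only [hk, if_true] at hw
        refine ⟨0, fun n _ => ?_⟩
        obtain ⟨a, ha, had⟩ := pass' n k hk.le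
        obtain ⟨b, hb, hbd⟩ := pass' n (k + 1) hk
        obtain ⟨n', η', hη', e0, e1, hsub⟩ := subgeo (hη n) ha hb
        obtain ⟨i, hi, hd⟩ := D.fellowP (y k) n' (fun i => (pre D.φ y k)⁻¹ * η' i)
          (hη'.left _) (by
            simp only [e0]
            rw [← A.dist_mul_left (pre D.φ y k)]
            simpa using had) (by
            simp only [e1]
            rw [← A.dist_mul_left (pre D.φ y k)]
            have e5 : pre D.φ y (k + 1) = pre D.φ y k * D.φ (y k) := rfl
            rw [e5] at hbd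
            simpa using hbd) w hw
        obtain ⟨j, hj, hj'⟩ := hsub i hi
        refine ⟨j, hj, le_trans ?_ (le_max_left _ _)⟩
        rw [← hj']
        rw [← A.dist_mul_left (pre D.φ y k)] at hd
        simpa using hd
      · have hkm' : k = m := by omega
        subst hkm'
        have : ¬ k < k := lt_irrefl k
        simp only [this, if_false] at hw
        rcases hw with rfl | ⟨s, rfl⟩
        · refine ⟨0, fun n _ => ?_⟩
          obtain ⟨a, ha, had⟩ := pass' n k le_rfl
          refine ⟨a, ha, le_trans ?_ (le_max_right _ _)⟩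
          simp only [mul_one]
          rw [A.dist_comm]; exact had
        · refine ⟨s, fun n hn => ?_⟩
          obtain ⟨a, ha, had⟩ := pass' n k le_rfl
          obtain ⟨n', η', hη', e0, e1, hsub⟩ := subgeo (hη n) ha le_rfl
          obtain ⟨i, hi, hd⟩ := D.fellowE (y (k - 1)) n' (fun i => (pre D.φ y k)⁻¹ * η' i) n
            (hη'.left _) (by
              simp only [e0]
              rw [← A.dist_mul_left (pre D.φ y k)]
              simpa using had) (by
              have e6 := η1 n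
              simp only [e1]
              rw [e6]
              simp [hu, he]) s hn
          obtain ⟨j, hj, hj'⟩ := hsub i hi
          refine ⟨j, hj, le_trans ?_ (le_max_left _ _)⟩
          rw [← hj']
          rw [← A.dist_mul_left (pre D.φ y k)] at hd
          simpa using hd
    obtain ⟨n₀, hn₀⟩ := claim
    obtain ⟨n, h1, h2⟩ := ((hγ (A.dist 1 v + max C₁ (D0 ν C'))).and (ev_ge n₀)).exists
    obtain ⟨i, hi, hd⟩ := hn₀ n h2
    refine ⟨i, ?_⟩
    have h4 := hη n 0 i (Nat.zero_le _) hi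
    rw [η0] at h4
    have t := A.dist_triangle 1 v (η n i)
    rw [← h1 i (by omega)]
    exact hd

end Pool.Agent.TH98.SC
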