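import Pool.Agent.TH98.SC.Extract

/-! # A countable cofinal family of Morse gauges gives a free subgroup -/

set_option autoImplicit false

namespace Pool.Agent.TH98.SC

open Pool.Agent.H659R3.MorseLim Filter

variable {G : Type} [Group G] {A : FinGen G}

theorem upgrade' {ν : ℕ → ℕ} {C l m : ℕ} {Q : ℕ → Set G} {z : ℕ → G}
    (c : Chain A ν C l m Q z)
    (hgood : ∀ i' j', i' < j' → j' ≤ m + 1 → GoodAt A 3 (ν 7) (UU Q i' j'))
    (hl : 2 * D0 ν C + ν 7 < l) {K B : ℕ} (hB : 6 * (3 * B + 1 + D0 ν C) ≤ l)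
    (h : ∀ (n : ℕ) (p : ℕ → G), IsPath A K n p → p 0 ∈ UU Q 0 m → p n ∈ UU Q 0 m →
      ∀ i ≤ n, ∃ y ∈ UU Q 0 (m + 1), A.dist (p i) y ≤ B) :
    GoodAt A K (ν (2 * K + 1)) (UU Q 0 m) := by
  intro n p hp h0 hn t ht
  have hclose := h n p hp h0 hn
  obtain ⟨a, ha1, ha2, ha3⟩ := h0
  obtain ⟨b, hb1, hb2, hb3⟩ := hn
  rcases le_total a b with hab | hab
  · obtain ⟨v, hv, hd⟩ := lemmaA c le_rfl (fun i' j' _ a2 a3 _ => hgood i' j' a2 a3) hl hB hp ha1
      hab (by omega) ha3 hb3 hclose t ht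
    exact ⟨v, UU_mono ha1 (by omega) hv, hd⟩
  · obtain ⟨v, hv, hd⟩ := lemmaA c le_rfl (fun i' j' _ a2 a3 _ => hgood i' j' a2 a3) hl hB
      hp.reverse hb1 hab (by omega) (by simpa using hb3) (by simpa using ha3)
      (fun s hs => hclose (n - s) (by omega)) (n - t) (by omega)
    have e : n - (n - t) = t := by omega
    simp only [e] at hd
    exact ⟨v, UU_mono hb1 (by omega) hv, hd⟩

/-- Geodesic rays from the same point, one of which is Morse, at finite distance, are uniformly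
close. -/
theorem uniform_close {ν : ℕ → ℕ} {E E' : ℕ → G} (hE : GeoOn A Set.univ E)
    (hE' : GeoOn A Set.univ E') (h0 : E 0 = E' 0) (hM : MSet A ν (Set.range E')) {C : ℕ}
    (h : ∀ s, ∃ s', A.dist (E s) (E' s') ≤ C) : ∀ t, A.dist (E t) (E' t) ≤ 2 * ν 3 := by
  intro t
  set T := t + 2 * C with hT
  obtain ⟨b, hb⟩ := h T
  have hp : IsGeo A T E := hE.isGeo fun _ _ => trivial
  obtain ⟨τ, D, σ, hτ, hD, hmin, hσ, s0, s1, ⟨q, hq, q1, q2⟩, -⟩ :=
    split_near (hp.isPath (K := 1) le_rfl) (E' b)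
  have hDC : D ≤ C := (hmin T le_rfl).trans hb
  have hτT : T ≤ τ + 2 * C := by
    have t1 := A.dist_triangle (E τ) (E' b) (E T)
    rw [A.dist_comm (E' b) (E T), hp τ T hτ le_rfl] at t1
    omega
  obtain ⟨v, ⟨s, rfl⟩, hd⟩ := hM 3 _ q hq
    (by rw [q1 0 (Nat.zero_le _), h0]; exact ⟨0, rfl⟩)
    (by rw [q2 D le_rfl, s1]; exact ⟨b, rfl⟩) t (by omega)
  rw [q1 t (by omega)] at hd
  have a1 := hE 0 trivial t trivial (Nat.zero_le _)
  have a2 := hE' 0 trivial s trivial (Nat.zero_le _)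
  rw [h0] at a1
  have t1 := A.dist_triangle (E' 0) (E t) (E' s)
  have t2 := A.dist_triangle (E' 0) (E' s) (E t)
  rw [A.dist_comm (E' s) (E t)] at t2
  have t3 := A.dist_triangle (E t) (E' s) (E' t)
  have t4 := hE'.abs (u := s) (u' := t) trivial trivial
  have t5 : A.dist (E' s) (E' t) ≤ ν 3 := by
    have : |(s : ℤ) - t| ≤ ν 3 := by
      rw [abs_le]; omega
    omega
  omega

theorem geom (hinf : Infinite (MorseBoundary A)) (N : ℕ → Gauge)
    (hN : ∀ M : Gauge, ∃ i, ∀ γ : NRay A M, ∃ γ' : NRay A (N i), γ'.cls = γ.cls) :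
    ∃ f : FreeGroup Bool →* G, Function.Injective f := by
  classical
  by_contra hno
  -- rays
  obtain ⟨ρ, hρinj⟩ : ∃ ρ : ℕ → MorseRay A, ∀ i j, i ≠ j → ¬ FinHaus A (ρ i).path (ρ j).path := by
    let e := Infinite.natEmbedding (MorseBoundary A)
    choose ρ hρ using fun n => Quotient.exists_rep (s := raySetoid A) (e n)
    refine ⟨ρ, fun i j hij h => hij ?_⟩
    apply e.injective
    rw [← hρ i, ← hρ j]
    exact Quotient.sound (s := raySetoid A) h
  have hρg : ∀ i, GeoOn A Set.univ (ρ i).path := fun i => geoOn_of_isGeod (ρ i).geod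
  have hne : ∀ i j, i ≠ j → ∃ T, ∀ s, T ≤ s → (ρ i).path s ≠ (ρ j).path s := by
    intro i j hij
    by_contra hcon
    push Not at hcon
    apply hρinj i j hij
    obtain ⟨M, hM⟩ := (ρ j).morse
    obtain ⟨D, hD⟩ := exists_nat_ge (2 * M 1 1)
    refine finHaus_of_pointwise (D := D) fun n => ?_
    obtain ⟨s, hs, hs'⟩ := hcon n
    have := geo_close (T := Set.univ) (fun _ _ _ _ => trivial) (ρ j).geod hM (t := s) trivial
      (α := (ρ i).path) (fun m _ n _ => (ρ i).geod m trivial n trivial)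
      (by rw [(ρ i).zero, (ρ j).zero]) hs' hs
    exact_mod_cast this.trans hD
  obtain ⟨M₀, hM₀⟩ := (ρ 0).morse
  have hrM : MSet A (disc M₀) (Set.range (ρ 0).path) := by
    have := mset_of_isMorse hM₀
    rwa [Set.image_univ] at this
  obtain ⟨β, hβ⟩ := exists_beta (hρg 0)
  obtain ⟨g, hg⟩ := exists_g (beta_geo (hρg 0) hβ) (beta_zero hβ) (beta_morse (hρg 0) hβ hrM)
    hρg (fun i => (ρ i).zero) hne
  obtain ⟨ν, C', C₁, hν, hD⟩ := exists_alph (hρg 0) hrM hβ hg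
  -- constants
  set C₅ := max C₁ (D0 ν C') with hC₅
  set Ns : ℕ → ℕ → ℕ := fun i K => disc (N i) (K + 2 * (C₅ + 2 * disc (N i) 3) * (K + 1)) +
    2 * disc (N i) 3 + ν 7 with hNs
  set KK : ℕ → ℕ := fun j => 15 + j with hKK
  set ll : ℕ → ℕ := fun j => 2 * D0 ν C' + ν 7 + 1 + 6 * (3 * ν (2 * KK j + 1) + 1 + D0 ν C') +
    ∑ i ∈ Finset.range (j + 1), 6 * (3 * Ns i (KK j) + 1 + D0 ν C') with hll
  have hl1 : ∀ j, 2 * D0 ν C' + ν 7 < ll j := by
    intro j; simp only [hll]; omega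
  have hl2 : ∀ j, 6 * (3 * ν (2 * KK j + 1) + 1 + D0 ν C') ≤ ll j := by
    intro j; simp only [hll]; omega
  have hl3 : ∀ i, 6 * (3 * Ns i (KK i) + 1 + D0 ν C') ≤ ll i := by
    intro i
    have := Finset.single_le_sum (f := fun i' => 6 * (3 * Ns i' (KK i) + 1 + D0 ν C'))
      (fun _ _ => Nat.zero_le _) (Finset.mem_range.2 (show i < i + 1 by omega))
    simp only [hll]
    omega
  have D : ∀ j, Alph A ν C' C₁ (ll j) := fun j => (hD (ll j)).some
  have hK15 : ∀ j, 15 ≤ KK j := fun j => by simp only [hKK]; omega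
  choose m y hm hred hbad hgood using fun j => exists_bad (D j) hν hno (hK15 j) (hl1 j) (hl2 j)
  have c := fun j => chain_of_red (D j) hν (hm j) (hred j)
  have hZ : ∀ j i i', i < i' → i' ≤ m j + 1 → ∀ K', 4 * K' + 3 ≤ KK j →
      GoodAt A K' (ν (2 * K' + 1)) (UU (QQ (D j) (m j) (y j)) i i') := fun j i i' h1 h2 K' hK' =>
    lemmaZ (c j) (hm j) (hK15 j) (hl1 j) (hl2 j) (hgood j) (i' - i) i i' (by omega) (by omega) h2
      K' hK'
  have h3 : ∀ j i i', i < i' → i' ≤ m j + 1 →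
      GoodAt A 3 (ν 7) (UU (QQ (D j) (m j) (y j)) i i') := fun j i i' h1 h2 =>
    hZ j i i' h1 h2 3 (hK15 j)
  choose γ hγ0 hγg hγ1 hγ2 using fun j => exists_ray (D j) hν (hm j) (hred j) (hl1 j) (h3 j)
  -- the common gauge
  obtain ⟨μ, hμ⟩ : ∃ μ : ℕ → ℕ, ∀ j, MSet A μ (UU (QQ (D j) (m j) (y j)) 0 (m j + 1)) := by
    have hB : ∀ j K', ∃ B, GoodAt A K' B (UU (QQ (D j) (m j) (y j)) 0 (m j + 1)) := fun j K' =>
      chain_good (c j) (m j + 1) 0 (m j + 1) (by omega) (by omega) le_rfl K'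
    choose B hB using hB
    refine ⟨fun K' => max (ν (2 * K' + 1)) ((Finset.range (4 * K' + 3)).sup fun j => B j K'),
      fun j K' => ?_⟩
    by_cases hj : 4 * K' + 3 ≤ KK j
    · exact (hZ j 0 (m j + 1) (by omega) le_rfl K' hj).monoB (le_max_left _ _)
    · refine (hB j K').monoB (le_trans ?_ (le_max_right _ _))
      refine Finset.le_sup (f := fun j => B j K') (Finset.mem_range.2 ?_)
      simp only [hKK] at hj
      omega
  set Cm := max (ν 7) C₅ with hCm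
  have hγM : ∀ j, MSet A (fun K => μ (max K 1 + 2 * Cm * (max K 1 + 1)) + Cm)
      (γ j '' Set.univ) := by
    intro j K
    refine GoodAt.monoK ((hμ j _).stable (K := max K 1) (le_max_right _ _) ?_ ?_)
      (le_max_left _ _)
    · rintro _ ⟨i, -, rfl⟩
      obtain ⟨v, hv, hd⟩ := hγ1 j i
      exact ⟨v, hv, hd.trans (le_max_left _ _)⟩
    · intro v hv
      obtain ⟨i, hd⟩ := hγ2 j v hv
      refine ⟨_, ⟨i, trivial, rfl⟩, ?_⟩
      rw [A.dist_comm]
      exact hd.trans (le_max_right _ _)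
  let R : ∀ j, NRay A (cont fun K => μ (max K 1 + 2 * Cm * (max K 1 + 1)) + Cm) := fun j =>
    ⟨γ j, hγ0 j, isGeod_of_geoOn (hγg j), isMorse_of_mset (hγM j)⟩
  obtain ⟨i, hi⟩ := hN (cont fun K => μ (max K 1 + 2 * Cm * (max K 1 + 1)) + Cm)
  obtain ⟨γ', hγ'⟩ := hi (R i)
  have hfin : FinHaus A γ'.path (γ i) := Quotient.exact (s := raySetoid A) hγ'
  have hγ'g : GeoOn A Set.univ γ'.path := geoOn_of_isGeod γ'.geod
  have hγ'M : MSet A (disc (N i)) (Set.range γ'.path) := by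
    have := mset_of_isMorse γ'.morse
    rwa [Set.image_univ] at this
  have hclose : ∀ t, A.dist (γ i t) (γ'.path t) ≤ 2 * disc (N i) 3 := by
    obtain ⟨Cf, -, hCf⟩ := hfin
    refine uniform_close (hγg i) hγ'g (by rw [hγ0, γ'.zero]) hγ'M (C := Cf) fun s => ?_
    obtain ⟨s', hs'⟩ := hCf s
    exact ⟨s', by rwa [A.dist_comm]⟩
  -- the contradiction
  apply hbad i
  refine upgrade' (c i) (h3 i) (hl1 i) (hl3 i) fun n p hp h0 hn t ht => ?_
  have hU : UU (QQ (D i) (m i) (y i)) 0 (m i) ⊆ UU (QQ (D i) (m i) (y i)) 0 (m i + 1) :=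
    UU_mono le_rfl (Nat.le_succ _)
  have hend : ∀ v ∈ UU (QQ (D i) (m i) (y i)) 0 (m i), ∃ w ∈ Set.range γ'.path,
      A.dist v w ≤ C₅ + 2 * disc (N i) 3 := by
    intro v hv
    obtain ⟨s, hs⟩ := hγ2 i v (hU hv)
    refine ⟨_, ⟨s, rfl⟩, ?_⟩
    have t1 := A.dist_triangle v (γ i s) (γ'.path s)
    have t2 := hclose s
    omega
  obtain ⟨w, ⟨s, rfl⟩, hw⟩ := (hγ'M _).near (K := KK i) (by have := hK15 i; omega) hp
    (hend _ h0) (hend _ hn) ht
  obtain ⟨v, hv, hd⟩ := hγ1 i s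
  refine ⟨v, hv, ?_⟩
  have t1 := A.dist_triangle (p t) (γ'.path s) v
  have t2 := A.dist_triangle (γ'.path s) (γ i s) v
  have t3 := hclose s
  rw [A.dist_comm] at t3
  simp only [hNs]
  omega

end Pool.Agent.TH98.SC
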