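import Pool.Agent.TH98.SC.Path

/-! # Sets such that quasi-geodesics with endpoints on them stay close -/

set_option autoImplicit false

namespace Pool.Agent.TH98.SC

open Pool.Agent.H659R3.MorseLim

variable {G : Type} [Group G] (A : FinGen G)

/-- Every `K`-path with endpoints in `Y` stays in the `B`-neighbourhood of `Y`. -/
def GoodAt (K B : ℕ) (Y : Set G) : Prop :=
  ∀ (n : ℕ) (p : ℕ → G), IsPath A K n p → p 0 ∈ Y → p n ∈ Y → ∀ i ≤ n, ∃ y ∈ Y, A.dist (p i) y ≤ B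

/-- `Y` is Morse with gauge `ν` (for discrete paths). -/
def MSet (ν : ℕ → ℕ) (Y : Set G) : Prop := ∀ K, GoodAt A K (ν K) Y

variable {A}

theorem GoodAt.monoB {K B B' : ℕ} {Y : Set G} (h : GoodAt A K B Y) (hB : B ≤ B') :
    GoodAt A K B' Y := by
  intro n p hp h0 hn i hi
  obtain ⟨y, hy, hd⟩ := h n p hp h0 hn i hi
  exact ⟨y, hy, hd.trans hB⟩

theorem GoodAt.monoK {K K' B : ℕ} {Y : Set G} (h : GoodAt A K' B Y) (hK : K ≤ K') :
    GoodAt A K B Y := fun n p hp h0 hn i hi => h n p (hp.monoK hK) h0 hn i hi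

theorem GoodAt.mono {K K' B B' : ℕ} {Y : Set G} (h : GoodAt A K' B Y) (hK : K ≤ K')
    (hB : B ≤ B') : GoodAt A K B' Y := (h.monoK hK).monoB hB

/-- The union of two good sets with a common point is good, with worse constants. -/
theorem good_union {K B : ℕ} {Y Y' : Set G} {z : G} (h : GoodAt A (2 * K + 1) B Y)
    (h' : GoodAt A (2 * K + 1) B Y') (hz : z ∈ Y) (hz' : z ∈ Y') : GoodAt A K B (Y ∪ Y') := by
  have aux : ∀ {Y Y' : Set G}, GoodAt A (2 * K + 1) B Y → GoodAt A (2 * K + 1) B Y' → z ∈ Y →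
      z ∈ Y' → ∀ (n : ℕ) (p : ℕ → G), IsPath A K n p → p 0 ∈ Y → p n ∈ Y' → ∀ i ≤ n,
        ∃ y ∈ Y ∪ Y', A.dist (p i) y ≤ B := by
    intro Y Y' h h' hz hz' n p hp h0 hn i hi
    obtain ⟨t, D, σ, ht, -, -, hσ, s0, s1, ⟨q, hq, q1, q2⟩, ⟨q', hq', q1', q2'⟩⟩ :=
      split_near hp z
    rcases le_total i t with hit | hit
    · obtain ⟨y, hy, hd⟩ := h _ q hq (by rw [q1 0 (Nat.zero_le _)]; exact h0)
        (by rw [q2 D le_rfl, s1]; exact hz) i (by omega)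
      rw [q1 i hit] at hd
      exact ⟨y, Or.inl hy, hd⟩
    · obtain ⟨y, hy, hd⟩ := h' _ q' hq' (by
          have := q1' n ht le_rfl
          rw [Nat.sub_self] at this
          rw [this]; exact hn)
        (by rw [q2' D le_rfl, s1]; exact hz') (n - i) (by omega)
      rw [q1' i hit hi] at hd
      exact ⟨y, Or.inr hy, hd⟩
  intro n p hp h0 hn i hi
  rcases h0 with h0 | h0 <;> rcases hn with hn | hn
  · obtain ⟨y, hy, hd⟩ := (h.monoK (K := K) (by omega)) n p hp h0 hn i hi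
    exact ⟨y, Or.inl hy, hd⟩
  · exact aux h h' hz hz' n p hp h0 hn i hi
  · obtain ⟨y, hy, hd⟩ := aux h' h hz' hz n p hp h0 hn i hi
    exact ⟨y, hy.symm, hd⟩
  · obtain ⟨y, hy, hd⟩ := (h'.monoK (K := K) (by omega)) n p hp h0 hn i hi
    exact ⟨y, Or.inr hy, hd⟩

/-- Goodness passes to sets at finite Hausdorff distance. -/
theorem GoodAt.stable {K B C : ℕ} {Y Y' : Set G} (hK : 1 ≤ K)
    (h : GoodAt A (K + 2 * C * (K + 1)) B Y)
    (h1 : ∀ y' ∈ Y', ∃ y ∈ Y, A.dist y' y ≤ C) (h2 : ∀ y ∈ Y, ∃ y' ∈ Y', A.dist y' y ≤ C) :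
    GoodAt A K (B + C) Y' := by
  intro n p hp h0 hn i hi
  obtain ⟨x, hx, hxd⟩ := h1 _ h0
  obtain ⟨y, hy, hyd⟩ := h1 _ hn
  obtain ⟨q, Dx, N, hq, q0, qN, hN, q1⟩ := extend hp (x := x) (y := y)
    (by rwa [A.dist_comm]) hyd hK
  obtain ⟨v, hv, hvd⟩ := h N q hq (by rwa [q0]) (by rwa [qN]) (Dx + i) (by omega)
  rw [q1 i hi] at hvd
  obtain ⟨v', hv', hvd'⟩ := h2 v hv
  refine ⟨v', hv', ?_⟩
  have := A.dist_triangle (p i) v v'
  rw [A.dist_comm v v'] at this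
  omega

/-- A path with endpoints close to a good set stays close to it. -/
theorem GoodAt.near {K B C : ℕ} {Y : Set G} (hK : 1 ≤ K)
    (h : GoodAt A (K + 2 * C * (K + 1)) B Y) {n : ℕ} {p : ℕ → G} (hp : IsPath A K n p)
    (h0 : ∃ y ∈ Y, A.dist (p 0) y ≤ C) (hn : ∃ y ∈ Y, A.dist (p n) y ≤ C) {i : ℕ} (hi : i ≤ n) :
    ∃ y ∈ Y, A.dist (p i) y ≤ B := by
  obtain ⟨x, hx, hxd⟩ := h0
  obtain ⟨y, hy, hyd⟩ := hn
  obtain ⟨q, Dx, N, hq, q0, qN, hN, q1⟩ := extend hp (x := x) (y := y)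
    (by rwa [A.dist_comm]) hyd hK
  obtain ⟨v, hv, hvd⟩ := h N q hq (by rwa [q0]) (by rwa [qN]) (Dx + i) (by omega)
  rw [q1 i hi] at hvd
  exact ⟨v, hv, hvd⟩

theorem GoodAt.left {K B : ℕ} {Y : Set G} (h : GoodAt A K B Y) (g : G) :
    GoodAt A K B ((fun x => g * x) '' Y) := by
  intro n p hp h0 hn i hi
  have h0' : g⁻¹ * p 0 ∈ Y := by
    obtain ⟨y, hy, e⟩ := h0
    simp only at e
    rw [← e]; simpa using hy
  have hn' : g⁻¹ * p n ∈ Y := by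
    obtain ⟨y, hy, e⟩ := hn
    simp only at e
    rw [← e]; simpa using hy
  obtain ⟨y, hy, hd⟩ := h n (fun i => g⁻¹ * p i) (hp.left g⁻¹) h0' hn' i hi
  refine ⟨g * y, ⟨y, hy, rfl⟩, ?_⟩
  rw [← A.dist_mul_left g⁻¹]
  simpa using hd

theorem MSet.left {ν : ℕ → ℕ} {Y : Set G} (h : MSet A ν Y) (g : G) :
    MSet A ν ((fun x => g * x) '' Y) := fun K => (h K).left g

/-- The monotone envelope of a gauge. -/
def env (ν : ℕ → ℕ) (K : ℕ) : ℕ := (Finset.range (K + 1)).sup ν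

theorem env_mono (ν : ℕ → ℕ) : Monotone (env ν) := by
  intro a b hab
  exact Finset.sup_mono (by intro x; simp; omega)

theorem le_env (ν : ℕ → ℕ) (K : ℕ) : ν K ≤ env ν K :=
  Finset.le_sup (f := ν) (by simp)

theorem MSet.env {ν : ℕ → ℕ} {Y : Set G} (h : MSet A ν Y) : MSet A (env ν) Y :=
  fun K => (h K).monoB (le_env ν K)

theorem MSet.mono {ν ν' : ℕ → ℕ} {Y : Set G} (h : MSet A ν Y) (hν : ∀ K, ν K ≤ ν' K) :
    MSet A ν' Y := fun K => (h K).monoB (hν K)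

end Pool.Agent.TH98.SC
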