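import Pool.Agent.TH98.SC.Ray2

/-! # Limits of geodesics along an ultrafilter -/

set_option autoImplicit false

namespace Pool.Agent.TH98.SC

open Pool.Agent.H659R3.MorseLim Filter

variable {G : Type} [Group G] {A : FinGen G}

variable (A) in
theorem ball_finite (R : ℕ) : {g : G | A.len g ≤ R}.Finite := by
  induction R with
  | zero =>
    refine (Set.finite_singleton (1 : G)).subset ?_
    intro g hg
    exact A.eq_one_of_len (Nat.le_zero.1 hg)
  | succ R ih =>
    have hfin : (insert (1 : G) (A.S ∪ (fun x => x⁻¹) '' A.S)).Finite :=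
      (A.finite.union (A.finite.image _)).insert _
    refine (Set.Finite.image2 (fun x y => x * y) ih hfin).subset ?_
    intro g hg
    rw [Set.mem_ofPred_eq] at hg
    rcases Nat.eq_or_lt_of_le hg with h | h
    · obtain ⟨σ, hσ, s0, s1⟩ := exists_geo A 1 g
      rw [A.dist_one_left, h] at s1
      rw [A.dist_one_left, h] at hσ
      refine ⟨σ R, ?_, (σ R)⁻¹ * g, ?_, by simp⟩
      · have := hσ 0 R (Nat.zero_le _) (by omega)
        rw [s0, A.dist_one_left] at this
        rw [Set.mem_ofPred_eq]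
        omega
      · have := hσ R (R + 1) (by omega) le_rfl
        rw [s1, FinGen.dist] at this
        have h1 : A.len ((σ R)⁻¹ * g) = 1 := by omega
        rcases A.gen_of_len h1 with h2 | h2
        · exact Or.inr (Or.inl h2)
        · exact Or.inr (Or.inr ⟨_, h2, by simp⟩)
    · exact ⟨g, by rw [Set.mem_ofPred_eq]; omega, 1, Or.inl rfl, by simp⟩

/-- The ultrafilter. -/
noncomputable abbrev UF : Ultrafilter ℕ := hyperfilter ℕ

theorem ev_ge (L : ℕ) : ∀ᶠ n in (UF : Filter ℕ), L ≤ n := by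
  have h : (UF : Filter ℕ) ≤ atTop := by
    rw [← Nat.cofinite_eq_atTop]
    exact hyperfilter_le_cofinite
  exact h (eventually_ge_atTop L)

theorem exists_lim {f : ℕ → G} {R : ℕ} (h : ∀ᶠ n in (UF : Filter ℕ), A.len (f n) ≤ R) :
    ∃ v, ∀ᶠ n in (UF : Filter ℕ), f n = v := by
  have h1 : (⋃ v ∈ {g : G | A.len g ≤ R}, {n | f n = v}) ∈ UF := by
    filter_upwards [h] with n hn
    simp only [Set.mem_iUnion]
    exact ⟨f n, hn, rfl⟩
  obtain ⟨v, -, hv⟩ := (Ultrafilter.finite_biUnion_mem_iff (ball_finite A R)).1 h1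
  exact ⟨v, hv⟩

theorem exists_lim_seq {η : ℕ → ℕ → G}
    (h : ∀ i, ∃ R, ∀ᶠ n in (UF : Filter ℕ), A.len (η n i) ≤ R) :
    ∃ γ : ℕ → G, ∀ L, ∀ᶠ n in (UF : Filter ℕ), ∀ i ≤ L, η n i = γ i := by
  choose R hR using h
  choose γ hγ using fun i => exists_lim (hR i)
  refine ⟨γ, fun L => ?_⟩
  have := (eventually_all_finite (Set.finite_Iic L)).2 (fun i _ => hγ i)
  exact this

/-- A limit of longer and longer geodesics is a geodesic ray. -/
theorem geoOn_lim {η : ℕ → ℕ → G} {γ : ℕ → G}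
    (hγ : ∀ L, ∀ᶠ n in (UF : Filter ℕ), ∀ i ≤ L, η n i = γ i)
    (hη : ∀ L, ∀ᶠ n in (UF : Filter ℕ), IsGeo A L (η n)) : GeoOn A Set.univ γ := by
  intro i _ j _ hij
  obtain ⟨n, h1, h2⟩ := ((hγ j).and (hη j)).exists
  rw [← h1 i hij, ← h1 j le_rfl]
  exact h2 i j hij le_rfl

/-- The two halves of a limit of translates of a geodesic ray. -/
theorem exists_beta {r : ℕ → G} (hr : GeoOn A Set.univ r) :
    ∃ β : Bool → ℕ → G, ∀ L, ∀ᶠ n in (UF : Filter ℕ), L ≤ n ∧
      ∀ i ≤ L, (r n)⁻¹ * r (n + i) = β true i ∧ (r n)⁻¹ * r (n - i) = β false i := by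
  obtain ⟨bp, hbp⟩ := exists_lim_seq (A := A) (η := fun n i => (r n)⁻¹ * r (n + i)) (by
    intro i
    refine ⟨i, Eventually.of_forall fun n => ?_⟩
    have := hr n trivial (n + i) trivial (by omega)
    rw [FinGen.dist] at this
    omega)
  obtain ⟨bm, hbm⟩ := exists_lim_seq (A := A) (η := fun n i => (r n)⁻¹ * r (n - i)) (by
    intro i
    refine ⟨i, Eventually.of_forall fun n => ?_⟩
    have := hr (n - i) trivial n trivial (by omega)
    rw [A.dist_comm, FinGen.dist] at this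
    omega)
  refine ⟨fun b => if b then bp else bm, fun L => ?_⟩
  filter_upwards [ev_ge L, hbp L, hbm L] with n h1 h2 h3
  exact ⟨h1, fun i hi => ⟨by simpa using h2 i hi, by simpa using h3 i hi⟩⟩

section beta

variable {r : ℕ → G} (hr : GeoOn A Set.univ r) {β : Bool → ℕ → G}
  (hβ : ∀ L, ∀ᶠ n in (UF : Filter ℕ), L ≤ n ∧
      ∀ i ≤ L, (r n)⁻¹ * r (n + i) = β true i ∧ (r n)⁻¹ * r (n - i) = β false i)

include hr hβ

theorem beta_geo (b : Bool) : GeoOn A Set.univ (β b) := by
  intro i _ j _ hij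
  obtain ⟨n, h1, h2⟩ := (hβ j).exists
  cases b
  · rw [← (h2 i hij).2, ← (h2 j le_rfl).2, A.dist_mul_left, A.dist_comm,
      hr (n - j) trivial (n - i) trivial (by omega)]
    omega
  · rw [← (h2 i hij).1, ← (h2 j le_rfl).1, A.dist_mul_left,
      hr (n + i) trivial (n + j) trivial (by omega)]
    omega

theorem beta_opp (i j : ℕ) : A.dist (β true i) (β false j) = i + j := by
  obtain ⟨n, h1, h2⟩ := (hβ (max i j)).exists
  rw [← (h2 i (le_max_left _ _)).1, ← (h2 j (le_max_right _ _)).2, A.dist_mul_left, A.dist_comm,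
    hr (n - j) trivial (n + i) trivial (by omega)]
  omega

omit hr in
theorem beta_zero (b : Bool) : β b 0 = 1 := by
  obtain ⟨n, h1, h2⟩ := (hβ 0).exists
  cases b
  · rw [← (h2 0 le_rfl).2]; simp
  · rw [← (h2 0 le_rfl).1]; simp

theorem beta_morse {ν : ℕ → ℕ} (hM : MSet A ν (Set.range r)) (b : Bool) :
    MSet A (sub ν) (Set.range (β b)) := by
  rintro K N p hp ⟨s, h0⟩ ⟨s', hN⟩ i hi
  obtain ⟨n, h1, h2⟩ := (hβ (s + s')).exists
  have hM' : MSet A ν (r '' Set.univ) := by rwa [Set.image_univ]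
  cases b
  · have hsub := subsegment hr hM' (a := n - (s + s')) (b := n) (fun _ _ _ => trivial) (by omega)
    obtain ⟨y, ⟨u, ⟨hu1, hu2⟩, rfl⟩, hd⟩ := hsub K N (fun i => r n * p i) (hp.left (r n))
      (by
        refine ⟨n - s, ⟨by omega, by omega⟩, ?_⟩
        rw [← h0, ← (h2 s (by omega)).2]; simp) (by
        refine ⟨n - s', ⟨by omega, by omega⟩, ?_⟩
        rw [← hN, ← (h2 s' (by omega)).2]; simp) i hi
    refine ⟨β false (n - u), ⟨_, rfl⟩, ?_⟩
    rw [← (h2 (n - u) (by omega)).2, ← A.dist_mul_left (r n)]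
    have : n - (n - u) = u := by omega
    rw [this]
    simpa using hd
  · have hsub := subsegment hr hM' (a := n) (b := n + (s + s')) (fun _ _ _ => trivial) (by omega)
    obtain ⟨y, ⟨u, ⟨hu1, hu2⟩, rfl⟩, hd⟩ := hsub K N (fun i => r n * p i) (hp.left (r n))
      (by
        refine ⟨n + s, ⟨by omega, by omega⟩, ?_⟩
        rw [← h0, ← (h2 s (by omega)).1]; simp) (by
        refine ⟨n + s', ⟨by omega, by omega⟩, ?_⟩
        rw [← hN, ← (h2 s' (by omega)).1]; simp) i hi
    refine ⟨β true (u - n), ⟨_, rfl⟩, ?_⟩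
    rw [← (h2 (u - n) (by omega)).1, ← A.dist_mul_left (r n)]
    have : n + (u - n) = u := by omega
    rw [this]
    simpa using hd

end beta

end Pool.Agent.TH98.SC
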