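import Pool.Agent.H659R3.MorseLim.Cuts

/-! # Discrete quasi-geodesics and their surgery -/

set_option autoImplicit false

namespace Pool.Agent.TH98.SC

open Pool.Agent.H659R3.MorseLim

variable {G : Type} [Group G] (A : FinGen G)

/-- `p : {0, ..., n} → G` is a `1`-Lipschitz `K`-quasi-geodesic. -/
def IsPath (K n : ℕ) (p : ℕ → G) : Prop :=
  ∀ i j, i ≤ j → j ≤ n → A.dist (p i) (p j) ≤ j - i ∧ j - i ≤ K * A.dist (p i) (p j) + K

/-- `p : {0, ..., n} → G` is geodesic. -/
def IsGeo (n : ℕ) (p : ℕ → G) : Prop :=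
  ∀ i j, i ≤ j → j ≤ n → A.dist (p i) (p j) = j - i

variable {A}

theorem IsGeo.isPath {n : ℕ} {p : ℕ → G} (h : IsGeo A n p) {K : ℕ} (hK : 1 ≤ K) :
    IsPath A K n p := by
  intro i j hij hj
  have := h i j hij hj
  refine ⟨this.le, ?_⟩
  rw [this]
  nlinarith [Nat.zero_le (j - i)]

theorem IsGeo.mono {n m : ℕ} {p : ℕ → G} (h : IsGeo A n p) (hm : m ≤ n) : IsGeo A m p :=
  fun i j hij hj => h i j hij (hj.trans hm)

theorem IsGeo.shift {n : ℕ} {p : ℕ → G} (h : IsGeo A n p) {a m : ℕ} (hm : a + m ≤ n) :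
    IsGeo A m (fun i => p (a + i)) := by
  intro i j hij hj
  have := h (a + i) (a + j) (by omega) (by omega)
  simp only [this]; omega

theorem IsGeo.reverse {n : ℕ} {p : ℕ → G} (h : IsGeo A n p) : IsGeo A n (fun i => p (n - i)) := by
  intro i j hij hj
  have := h (n - j) (n - i) (by omega) (by omega)
  simp only
  rw [A.dist_comm, this]; omega

theorem IsGeo.left {n : ℕ} {p : ℕ → G} (h : IsGeo A n p) (g : G) :
    IsGeo A n (fun i => g * p i) := by
  intro i j hij hj
  simp only [A.dist_mul_left]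
  exact h i j hij hj

theorem IsPath.monoK {K K' n : ℕ} {p : ℕ → G} (h : IsPath A K n p) (hK : K ≤ K') :
    IsPath A K' n p := by
  intro i j hij hj
  obtain ⟨h1, h2⟩ := h i j hij hj
  refine ⟨h1, h2.trans ?_⟩
  have := Nat.mul_le_mul_right (A.dist (p i) (p j)) hK
  omega

theorem IsPath.mono {K n m : ℕ} {p : ℕ → G} (h : IsPath A K n p) (hm : m ≤ n) : IsPath A K m p :=
  fun i j hij hj => h i j hij (hj.trans hm)

theorem IsPath.shift {K n : ℕ} {p : ℕ → G} (h : IsPath A K n p) {a m : ℕ} (hm : a + m ≤ n) :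
    IsPath A K m (fun i => p (a + i)) := by
  intro i j hij hj
  have := h (a + i) (a + j) (by omega) (by omega)
  have e : a + j - (a + i) = j - i := by omega
  rw [e] at this
  exact this

theorem IsPath.reverse {K n : ℕ} {p : ℕ → G} (h : IsPath A K n p) :
    IsPath A K n (fun i => p (n - i)) := by
  intro i j hij hj
  have := h (n - j) (n - i) (by omega) (by omega)
  have e : n - i - (n - j) = j - i := by omega
  rw [e, A.dist_comm] at this
  exact this

theorem IsPath.left {K n : ℕ} {p : ℕ → G} (h : IsPath A K n p) (g : G) :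
    IsPath A K n (fun i => g * p i) := by
  intro i j hij hj
  simp only [A.dist_mul_left]
  exact h i j hij hj

variable (A) in
/-- Existence of geodesics. -/
theorem exists_geo (x y : G) :
    ∃ σ : ℕ → G, IsGeo A (A.dist x y) σ ∧ σ 0 = x ∧ σ (A.dist x y) = y := by
  obtain ⟨l, h1, h2, h3⟩ := A.len_spec (x⁻¹ * y)
  have hl : l.length = A.dist x y := h1
  have key : ∀ i j, i ≤ j → A.dist (x * (l.take i).prod) (x * (l.take j).prod) ≤ j - i := by
    intro i j hij
    rw [A.dist_mul_left, FinGen.dist]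
    have e : (l.take i).prod⁻¹ * (l.take j).prod = ((l.take j).drop i).prod := by
      have : (l.take j).prod = ((l.take j).take i).prod * ((l.take j).drop i).prod := by
        rw [List.prod_take_mul_prod_drop]
      rw [this, List.take_take, min_eq_left hij]
      group
    rw [e]
    refine (A.len_le ?_).trans ?_
    · intro z hz
      exact h2 z (List.mem_of_mem_take (List.mem_of_mem_drop hz))
    · simp only [List.length_drop, List.length_take]
      omega
  have e0 : x * (l.take 0).prod = x := by simp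
  have e1 : x * (l.take (A.dist x y)).prod = y := by
    rw [← hl, List.take_length, h3]; group
  refine ⟨fun i => x * (l.take i).prod, ?_, e0, e1⟩
  intro i j hij hj
  have a1 := key 0 i (Nat.zero_le i)
  have a2 := key i j hij
  have a3 := key j (A.dist x y) hj
  rw [e0] at a1
  rw [e1] at a3
  have t1 := A.dist_triangle x (x * (l.take i).prod) y
  have t2 := A.dist_triangle (x * (l.take i).prod) (x * (l.take j).prod) y
  simp only
  omega

/-- Concatenation of a geodesic, a path and a geodesic. -/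
theorem concat3 {K K' n Dx Dy : ℕ} {p σx σy : ℕ → G} (hp : IsPath A K n p) (hK : K ≤ K')
    (hK1 : 1 ≤ K') (hx : IsGeo A Dx σx) (hy : IsGeo A Dy σy) (hx1 : σx Dx = p 0)
    (hy0 : σy 0 = p n)
    (H1 : ∀ s ≤ Dx, ∀ i ≤ n, (Dx - s) + i ≤ K' * A.dist (σx s) (p i) + K')
    (H2 : ∀ i ≤ n, ∀ s ≤ Dy, (n - i) + s ≤ K' * A.dist (p i) (σy s) + K')
    (H3 : ∀ s ≤ Dx, ∀ s' ≤ Dy, (Dx - s) + n + s' ≤ K' * A.dist (σx s) (σy s') + K') :
    ∃ q : ℕ → G, IsPath A K' (Dx + n + Dy) q ∧ (∀ s ≤ Dx, q s = σx s) ∧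
      (∀ i ≤ n, q (Dx + i) = p i) ∧ (∀ s ≤ Dy, q (Dx + n + s) = σy s) := by
  set q : ℕ → G := fun i => if i ≤ Dx then σx i else if i ≤ Dx + n then p (i - Dx) else
    σy (i - Dx - n) with hq
  have q1 : ∀ s ≤ Dx, q s = σx s := fun s hs => by simp [hq, hs]
  have q2 : ∀ i ≤ n, q (Dx + i) = p i := by
    intro i hi
    rcases Nat.eq_zero_or_pos i with rfl | h
    · rw [Nat.add_zero, q1 Dx le_rfl, hx1]
    · have a1 : ¬ (Dx + i ≤ Dx) := by omega
      have a2 : Dx + i ≤ Dx + n := by omega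
      simp only [hq, a1, a2, if_true, if_false]
      congr 1; omega
  have q3 : ∀ s ≤ Dy, q (Dx + n + s) = σy s := by
    intro s hs
    rcases Nat.eq_zero_or_pos s with rfl | h
    · rw [Nat.add_zero, q2 n le_rfl, hy0]
    · have a1 : ¬ (Dx + n + s ≤ Dx) := by omega
      have a2 : ¬ (Dx + n + s ≤ Dx + n) := by omega
      simp only [hq, a1, a2, if_false]
      congr 1; omega
  refine ⟨q, ?_, q1, q2, q3⟩
  have geoK : ∀ d : ℕ, d ≤ K' * d + K' := by
    intro d
    nlinarith
  intro i j hij hj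
  rcases le_total j Dx with hjx | hjx
  · -- both in the first part
    rw [q1 i (by omega), q1 j hjx, hx i j hij hjx]
    exact ⟨le_rfl, geoK _⟩
  rcases le_total j (Dx + n) with hjn | hjn
  · obtain ⟨j', rfl⟩ := Nat.exists_eq_add_of_le hjx
    rw [q2 j' (by omega)]
    rcases le_total i Dx with hix | hix
    · rw [q1 i hix]
      refine ⟨?_, ?_⟩
      · have t := A.dist_triangle (σx i) (p 0) (p j')
        have a1 := hx i Dx hix le_rfl
        rw [hx1] at a1
        have a2 := (hp 0 j' (Nat.zero_le _) (by omega)).1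
        omega
      · have := H1 i hix j' (by omega)
        omega
    · obtain ⟨i', rfl⟩ := Nat.exists_eq_add_of_le hix
      rw [q2 i' (by omega)]
      have := (hp.monoK hK) i' j' (by omega) (by omega)
      have e : Dx + j' - (Dx + i') = j' - i' := by omega
      rw [e]
      exact this
  · obtain ⟨j', rfl⟩ := Nat.exists_eq_add_of_le hjn
    rw [q3 j' (by omega)]
    rcases le_total i Dx with hix | hix
    · rw [q1 i hix]
      refine ⟨?_, ?_⟩
      · have t1 := A.dist_triangle (σx i) (p 0) (σy j')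
        have t2 := A.dist_triangle (p 0) (p n) (σy j')
        have a1 := hx i Dx hix le_rfl
        rw [hx1] at a1
        have a2 := (hp 0 n (Nat.zero_le _) le_rfl).1
        have a3 := hy 0 j' (Nat.zero_le _) (by omega)
        rw [hy0] at a3
        omega
      · have := H3 i hix j' (by omega)
        omega
    · obtain ⟨i', rfl⟩ := Nat.exists_eq_add_of_le hix
      rcases le_total (Dx + i') (Dx + n) with hin | hin
      · rw [q2 i' (by omega)]
        refine ⟨?_, ?_⟩
        · have t2 := A.dist_triangle (p i') (p n) (σy j')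
          have a2 := (hp i' n (by omega) le_rfl).1
          have a3 := hy 0 j' (Nat.zero_le _) (by omega)
          rw [hy0] at a3
          omega
        · have := H2 i' (by omega) j' (by omega)
          omega
      · obtain ⟨i'', hi''⟩ := Nat.exists_eq_add_of_le hin
        rw [hi'', q3 i'' (by omega), hy i'' j' (by omega) (by omega)]
        have e : Dx + n + j' - (Dx + n + i'') = j' - i'' := by omega
        rw [e]
        exact ⟨le_rfl, geoK _⟩

/-- Join both ends of a path to points `x`, `y` for which the ends are nearest points. -/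
theorem near_both {K n : ℕ} {p : ℕ → G} (hp : IsPath A K n p) {Dx Dy : ℕ} {σx σy : ℕ → G}
    (hx : IsGeo A Dx σx) (hy : IsGeo A Dy σy) (hx1 : σx Dx = p 0) (hy0 : σy 0 = p n)
    (nx : ∀ i ≤ n, Dx ≤ A.dist (σx 0) (p i)) (ny : ∀ i ≤ n, Dy ≤ A.dist (p i) (σy Dy))
    (hsep : Dx = 0 ∨ Dy = 0 ∨ 2 * (Dx + Dy) ≤ A.dist (p 0) (p n)) :
    ∃ q : ℕ → G, IsPath A (2 * K + 1) (Dx + n + Dy) q ∧ (∀ s ≤ Dx, q s = σx s) ∧
      (∀ i ≤ n, q (Dx + i) = p i) ∧ (∀ s ≤ Dy, q (Dx + n + s) = σy s) := by
  have H1 : ∀ s ≤ Dx, ∀ i ≤ n, (Dx - s) + i ≤ (2 * K + 1) * A.dist (σx s) (p i) + (2 * K + 1) := by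
    intro s hs i hi
    have a1 := nx i hi
    have a2 := A.dist_triangle (σx 0) (σx s) (p i)
    rw [hx 0 s (Nat.zero_le _) hs] at a2
    have a3 : Dx - s ≤ A.dist (σx s) (p i) := by omega
    have a4 := (hp 0 i (Nat.zero_le _) hi).2
    have a5 := A.dist_triangle (p 0) (σx s) (p i)
    have a6 := hx s Dx hs le_rfl
    rw [hx1, A.dist_comm] at a6
    have a7 : A.dist (p 0) (p i) ≤ 2 * A.dist (σx s) (p i) := by omega
    have a8 : K * A.dist (p 0) (p i) ≤ K * (2 * A.dist (σx s) (p i)) := Nat.mul_le_mul_left K a7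
    have a9 : (2 * K + 1) * A.dist (σx s) (p i) = K * (2 * A.dist (σx s) (p i)) +
      A.dist (σx s) (p i) := by ring
    omega
  have H2 : ∀ i ≤ n, ∀ s ≤ Dy,
      (n - i) + s ≤ (2 * K + 1) * A.dist (p i) (σy s) + (2 * K + 1) := by
    intro i hi s hs
    have a1 := ny i hi
    have a2 := A.dist_triangle (p i) (σy s) (σy Dy)
    rw [hy s Dy hs le_rfl] at a2
    have a3 : s ≤ A.dist (p i) (σy s) := by omega
    have a4 := (hp i n hi le_rfl).2
    have a5 := A.dist_triangle (p i) (σy s) (p n)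
    have a6 := hy 0 s (Nat.zero_le _) hs
    rw [hy0, A.dist_comm] at a6
    have a7 : A.dist (p i) (p n) ≤ 2 * A.dist (p i) (σy s) := by omega
    have a8 : K * A.dist (p i) (p n) ≤ K * (2 * A.dist (p i) (σy s)) := Nat.mul_le_mul_left K a7
    have a9 : (2 * K + 1) * A.dist (p i) (σy s) = K * (2 * A.dist (p i) (σy s)) +
      A.dist (p i) (σy s) := by ring
    omega
  refine concat3 hp (by omega) (by omega) hx hy hx1 hy0 H1 H2 ?_
  intro s hs s' hs'
  rcases hsep with h | h | h
  · have : s = 0 := by omega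
    subst this
    subst h
    have := H2 0 (Nat.zero_le _) s' hs'
    rw [← hx1] at this
    omega
  · have : s' = 0 := by omega
    subst this
    have := H1 s hs n le_rfl
    rw [← hy0] at this
    omega
  · have a1 := hx s Dx hs le_rfl
    rw [hx1] at a1
    have a2 := hy 0 s' (Nat.zero_le _) hs'
    rw [hy0] at a2
    have t1 := A.dist_triangle (p 0) (σx s) (p n)
    have t2 := A.dist_triangle (σx s) (σy s') (p n)
    rw [A.dist_comm (p 0) (σx s), A.dist_comm (σy s') (p n)] at *
    have a3 : A.dist (p 0) (p n) ≤ 2 * A.dist (σx s) (σy s') := by omega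
    have a4 := (hp 0 n (Nat.zero_le _) le_rfl).2
    have a8 : K * A.dist (p 0) (p n) ≤ K * (2 * A.dist (σx s) (σy s')) := Nat.mul_le_mul_left K a3
    have a9 : (2 * K + 1) * A.dist (σx s) (σy s') = K * (2 * A.dist (σx s) (σy s')) +
      A.dist (σx s) (σy s') := by ring
    omega

/-- Extend a path by geodesics of bounded length. -/
theorem extend {K n : ℕ} {p : ℕ → G} (hp : IsPath A K n p) {x y : G} {C : ℕ}
    (hx : A.dist x (p 0) ≤ C) (hy : A.dist (p n) y ≤ C) (hK : 1 ≤ K) :
    ∃ (q : ℕ → G) (Dx N : ℕ), IsPath A (K + 2 * C * (K + 1)) N q ∧ q 0 = x ∧ q N = y ∧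
      Dx + n ≤ N ∧ (∀ i ≤ n, q (Dx + i) = p i) := by
  obtain ⟨σx, hσx, x0, x1⟩ := exists_geo A x (p 0)
  obtain ⟨σy, hσy, y0, y1⟩ := exists_geo A (p n) y
  set Dx := A.dist x (p 0) with hDx
  set Dy := A.dist (p n) y with hDy
  have key : ∀ a b : G, ∀ u v : ℕ, u ≤ C → v ≤ C → ∀ i ≤ n, ∀ j ≤ n, i ≤ j → A.dist a (p i) ≤ u →
      A.dist (p j) b ≤ v →
      u + (j - i) + v ≤ (K + 2 * C * (K + 1)) * A.dist a b + (K + 2 * C * (K + 1)) := by
    intro a b u v hu hv i hi j hj hij ha hb
    have a4 := (hp i j hij hj).2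
    have t1 := A.dist_triangle (p i) a (p j)
    have t2 := A.dist_triangle a b (p j)
    rw [A.dist_comm (p i) a, A.dist_comm b (p j)] at *
    have a5 : A.dist (p i) (p j) ≤ A.dist a b + 2 * C := by omega
    have a6 := Nat.mul_le_mul_left K a5
    have a7 : K * (A.dist a b + 2 * C) = K * A.dist a b + 2 * C * K := by ring
    have a8 : (K + 2 * C * (K + 1)) * A.dist a b = K * A.dist a b +
      2 * C * (K + 1) * A.dist a b := by ring
    have a9 : 2 * C * (K + 1) = 2 * C * K + 2 * C := by ring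
    have a10 : 0 ≤ 2 * C * (K + 1) * A.dist a b := Nat.zero_le _
    omega
  obtain ⟨q, hq, q1, q2, q3⟩ := concat3 (K' := K + 2 * C * (K + 1)) hp (by omega) (by omega)
    hσx hσy x1 y0 (by
      intro s hs i hi
      have a1 := hσx s Dx hs le_rfl
      rw [x1] at a1
      have := key (σx s) (p i) (Dx - s) 0 (by omega) (by omega) 0 (Nat.zero_le _) i hi
        (Nat.zero_le _) (by omega) (by simp)
      omega) (by
      intro i hi s hs
      have a1 := hσy 0 s (Nat.zero_le _) hs
      rw [y0] at a1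
      have := key (p i) (σy s) 0 s (by omega) (by omega) i hi n le_rfl hi (by simp) (by omega)
      omega) (by
      intro s hs s' hs'
      have a1 := hσx s Dx hs le_rfl
      rw [x1] at a1
      have a2 := hσy 0 s' (Nat.zero_le _) hs'
      rw [y0] at a2
      have := key (σx s) (σy s') (Dx - s) s' (by omega) (by omega) 0 (Nat.zero_le _) n le_rfl
        (Nat.zero_le _) (by omega) (by omega)
      omega)
  refine ⟨q, Dx, Dx + n + Dy, hq, ?_, ?_, by omega, q2⟩
  · rw [q1 0 (Nat.zero_le _), x0]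
  · rw [q3 Dy le_rfl, y1]

/-- Split a path at a point nearest to `z`, and join both parts to `z` by the same geodesic. -/
theorem split_near {K n : ℕ} {p : ℕ → G} (hp : IsPath A K n p) (z : G) :
    ∃ (t D : ℕ) (σ : ℕ → G), t ≤ n ∧ D = A.dist (p t) z ∧ (∀ i ≤ n, D ≤ A.dist (p i) z) ∧
      IsGeo A D σ ∧ σ 0 = p t ∧ σ D = z ∧
      (∃ q, IsPath A (2 * K + 1) (t + D) q ∧ (∀ i ≤ t, q i = p i) ∧ ∀ s ≤ D, q (t + s) = σ s) ∧
      (∃ q, IsPath A (2 * K + 1) ((n - t) + D) q ∧ (∀ i, t ≤ i → i ≤ n → q (n - i) = p i) ∧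
        ∀ s ≤ D, q ((n - t) + s) = σ s) := by
  obtain ⟨t, ht, hmin⟩ := Finset.exists_min_image (Finset.range (n + 1))
    (fun i => A.dist (p i) z) ⟨0, by simp⟩
  rw [Finset.mem_range] at ht
  have hmin' : ∀ i ≤ n, A.dist (p t) z ≤ A.dist (p i) z := fun i hi =>
    hmin i (Finset.mem_range.2 (by omega))
  obtain ⟨σ, hσ, s0, s1⟩ := exists_geo A (p t) z
  refine ⟨t, A.dist (p t) z, σ, by omega, rfl, hmin', hσ, s0, s1, ?_, ?_⟩
  · obtain ⟨q, h1, h2, h3, h4⟩ := near_both (K := K) (n := t) (p := p) (Dx := 0)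
      (σx := fun _ => p 0) (hp.mono (by omega)) (by intro i j hij hj; simp; omega) hσ rfl s0
      (by intro i _; exact Nat.zero_le _) (by intro i hi; rw [s1]; exact hmin' i (by omega))
      (Or.inl rfl)
    rw [Nat.zero_add] at h1
    refine ⟨q, h1, fun i hi => ?_, fun s hs => ?_⟩
    · have := h3 i hi
      rwa [Nat.zero_add] at this
    · have := h4 s hs
      rwa [Nat.zero_add] at this
  · have hp' : IsPath A K (n - t) (fun i => p (n - i)) := (hp.reverse).mono (by omega)
    obtain ⟨q, h1, h2, h3, h4⟩ := near_both (K := K) (n := n - t) (p := fun i => p (n - i))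
      (Dx := 0) (σx := fun _ => p n) hp' (by intro i j hij hj; simp; omega) hσ (by simp)
      (by
        rw [s0]; congr 1; omega)
      (by intro i _; exact Nat.zero_le _)
      (by intro i hi; rw [s1]; exact hmin' (n - i) (by omega)) (Or.inl rfl)
    rw [Nat.zero_add] at h1
    refine ⟨q, h1, fun i hi hi' => ?_, fun s hs => ?_⟩
    · have := h3 (n - i) (by omega)
      rw [Nat.zero_add] at this
      rw [this]
      congr 1; omega
    · have := h4 s hs
      rwa [Nat.zero_add] at this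

end Pool.Agent.TH98.SC
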