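import Pool.Agent.TH98.SC.Good

/-! # Morse rays: from real to discrete quasi-geodesics, subsegments, fellow travelling -/

set_option autoImplicit false

namespace Pool.Agent.TH98.SC

open Pool.Agent.H659R3.MorseLim

variable {G : Type} [Group G] {A : FinGen G}

/-- `α` is geodesic on the set of times `T`. -/
def GeoOn (A : FinGen G) (T : Set ℕ) (α : ℕ → G) : Prop :=
  ∀ u ∈ T, ∀ u' ∈ T, u ≤ u' → A.dist (α u) (α u') = u' - u

theorem GeoOn.abs {T : Set ℕ} {α : ℕ → G} (h : GeoOn A T α) {u u' : ℕ} (hu : u ∈ T)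
    (hu' : u' ∈ T) : (A.dist (α u) (α u') : ℤ) = |(u : ℤ) - u'| := by
  rcases le_total u u' with h1 | h1
  · rw [h u hu u' hu' h1, abs_sub_comm, abs_of_nonneg (by omega)]; omega
  · rw [A.dist_comm, h u' hu' u hu h1, abs_of_nonneg (by omega)]; omega

theorem GeoOn.isGeo {T : Set ℕ} {α : ℕ → G} (h : GeoOn A T α) {n : ℕ} (hn : ∀ i ≤ n, i ∈ T) :
    IsGeo A n α := fun i j hij hj => h i (hn i (by omega)) j (hn j hj) hij

theorem IsGeo.geoOn {α : ℕ → G} {n : ℕ} (h : IsGeo A n α) : GeoOn A (Set.Iic n) α :=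
  fun i _ j hj hij => h i j hij hj

theorem GeoOn.mono {T T' : Set ℕ} {α : ℕ → G} (h : GeoOn A T α) (hT : T' ⊆ T) : GeoOn A T' α :=
  fun i hi j hj hij => h i (hT hi) j (hT hj) hij

theorem geoOn_of_isGeod {T : Set ℕ} {α : ℕ → G} (h : IsGeod A T α) : GeoOn A T α :=
  fun _ hi _ hj hij => h.nat hi hj hij

theorem isGeod_of_geoOn {T : Set ℕ} {α : ℕ → G} (h : GeoOn A T α) : IsGeod A T α :=
  isGeod_of_nat h

/-- A discrete path is a real quasi-geodesic. -/
theorem IsPath.isQuasiGeod {K n : ℕ} {p : ℕ → G} (hp : IsPath A K n p) (hK : 1 ≤ K) :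
    IsQuasiGeod A K 2 n (fun s => p ⌊s⌋₊) := by
  have hK' : (1 : ℝ) ≤ K := by exact_mod_cast hK
  have key : ∀ s t : ℝ, 0 ≤ s → s ≤ t → t ≤ n →
      (t - s) / K - 2 ≤ (A.dist (p ⌊s⌋₊) (p ⌊t⌋₊) : ℝ) ∧
      (A.dist (p ⌊s⌋₊) (p ⌊t⌋₊) : ℝ) ≤ K * (t - s) + 2 := by
    intro s t hs hst htn
    have f1 : ⌊s⌋₊ ≤ ⌊t⌋₊ := Nat.floor_mono hst
    have f2 : ⌊t⌋₊ ≤ n := Nat.floor_le_of_le htn
    obtain ⟨u1, u2⟩ := hp ⌊s⌋₊ ⌊t⌋₊ f1 f2
    have s1 := Nat.floor_le hs
    have s2 := Nat.lt_floor_add_one s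
    have t1 := Nat.floor_le (hs.trans hst)
    have t2 := Nat.lt_floor_add_one t
    have u1' : (A.dist (p ⌊s⌋₊) (p ⌊t⌋₊) : ℝ) ≤ (⌊t⌋₊ : ℝ) - ⌊s⌋₊ := by
      have : A.dist (p ⌊s⌋₊) (p ⌊t⌋₊) + ⌊s⌋₊ ≤ ⌊t⌋₊ := by omega
      have : (A.dist (p ⌊s⌋₊) (p ⌊t⌋₊) : ℝ) + ⌊s⌋₊ ≤ ⌊t⌋₊ := by exact_mod_cast this
      linarith
    have u2' : (⌊t⌋₊ : ℝ) - ⌊s⌋₊ ≤ K * A.dist (p ⌊s⌋₊) (p ⌊t⌋₊) + K := by
      have : ⌊t⌋₊ ≤ K * A.dist (p ⌊s⌋₊) (p ⌊t⌋₊) + K + ⌊s⌋₊ := by omega
      have : (⌊t⌋₊ : ℝ) ≤ K * A.dist (p ⌊s⌋₊) (p ⌊t⌋₊) + K + ⌊s⌋₊ := by exact_mod_cast this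
      linarith
    constructor
    · rw [sub_le_iff_le_add, div_le_iff₀ (by linarith)]
      nlinarith
    · nlinarith
  intro s hs t ht
  rcases le_total s t with hst | hst
  · rw [abs_sub_comm, abs_of_nonneg (by linarith)]
    exact key s t hs.1 hst ht.2
  · rw [abs_of_nonneg (by linarith), A.dist_comm]
    exact key t s ht.1 hst hs.2

/-- The discrete gauge of a real gauge. -/
noncomputable def disc (N : Gauge) (K : ℕ) : ℕ := ⌈N ((max K 1 : ℕ) : ℝ) 2⌉₊

theorem mset_of_isMorse {N : Gauge} {T : Set ℕ} {γ : ℕ → G} (h : IsMorse A N T γ) :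
    MSet A (disc N) (γ '' T) := by
  rintro K n p hp ⟨m, hm, h0⟩ ⟨m', hm', hn⟩ i hi
  have hp' := hp.monoK (le_max_left K 1)
  obtain ⟨k, hk, hd⟩ := h ((max K 1 : ℕ) : ℝ) 2 n (by exact_mod_cast le_max_right K 1)
    (by norm_num) (Nat.cast_nonneg n) _ (hp'.isQuasiGeod (le_max_right K 1))
    ⟨m, hm, by simp [h0]⟩ ⟨m', hm', by simp [hn]⟩ i ⟨Nat.cast_nonneg i, by exact_mod_cast hi⟩
  simp only [Nat.floor_natCast] at hd
  refine ⟨γ k, ⟨k, hk, rfl⟩, ?_⟩
  have := Nat.le_ceil (N ((max K 1 : ℕ) : ℝ) 2)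
  exact_mod_cast hd.trans this

/-- The real gauge of a discrete gauge. -/
noncomputable def cont (ν : ℕ → ℕ) : Gauge := fun lam eps =>
  ((ν (3 * ⌈lam + eps⌉₊ ^ 3 + 2 * ⌈lam + eps⌉₊) + ⌈lam + eps⌉₊ : ℕ) : ℝ)

/-- Taming of real quasi-geodesics. -/
theorem tame {lam eps L : ℝ} (hlam : 1 ≤ lam) (heps : 0 ≤ eps) (hL : 0 ≤ L) {q : ℝ → G}
    (hq : IsQuasiGeod A lam eps L q) :
    ∃ (n : ℕ) (p : ℕ → G), IsPath A (3 * ⌈lam + eps⌉₊ ^ 3 + 2 * ⌈lam + eps⌉₊) n p ∧ p 0 = q 0 ∧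
      p n = q L ∧ ∀ t ∈ Set.Icc 0 L, ∃ i ≤ n, A.dist (q t) (p i) ≤ ⌈lam + eps⌉₊ := by
  set c := ⌈lam + eps⌉₊ with hc
  have hc0 : lam + eps ≤ c := Nat.le_ceil _
  have hc1 : 1 ≤ c := by
    have : (1 : ℝ) ≤ c := by linarith
    exact_mod_cast this
  set n := ⌈L⌉₊ with hn
  have hn0 : L ≤ n := Nat.le_ceil _
  have hn1 : ∀ i : ℕ, i ≤ n → (i : ℝ) - 1 ≤ min (i : ℝ) L := by
    intro i hi
    refine le_min (by linarith) ?_
    rcases Nat.eq_zero_or_pos i with h | h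
    · rw [h]; push_cast; linarith
    · have : ((i - 1 : ℕ) : ℝ) < L := by
        rw [← Nat.lt_ceil]; omega
      rw [Nat.cast_sub h] at this
      push_cast at this
      linarith
  set x : ℕ → G := fun i => q (min (i : ℝ) L) with hx
  have hmem : ∀ i : ℕ, min (i : ℝ) L ∈ Set.Icc 0 L := fun i =>
    ⟨le_min (Nat.cast_nonneg i) hL, min_le_right _ _⟩
  have hstep : ∀ i, A.dist (x i) (x (i + 1)) ≤ c := by
    intro i
    have h1 := (hq _ (hmem i) _ (hmem (i + 1))).2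
    have h2 : |min (i : ℝ) L - min ((i + 1 : ℕ) : ℝ) L| ≤ 1 := by
      refine (abs_min_sub_min_le_max _ _ _ _).trans ?_
      push_cast
      simp
    have h3 : (A.dist (x i) (x (i + 1)) : ℝ) ≤ c := by
      refine h1.trans ?_
      nlinarith
    exact_mod_cast h3
  choose σ hσ σ0 σ1 using fun i => exists_geo A (x i) (x (i + 1))
  set d : ℕ → ℕ := fun i => A.dist (x i) (x (i + 1)) with hd
  set p : ℕ → G := fun k => σ (k / c) (min (k % c) (d (k / c))) with hp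
  have hpx : ∀ i, p (c * i) = x i := by
    intro i
    simp only [hp, Nat.mul_div_cancel_left i (by omega : 0 < c), Nat.mul_mod_right, Nat.zero_min,
      σ0]
  have lip1 : ∀ k, A.dist (p k) (p (k + 1)) ≤ 1 := by
    intro k
    have hk := Nat.div_add_mod k c
    have hr := Nat.mod_lt k (by omega : 0 < c)
    rcases Nat.lt_or_ge (k % c + 1) c with h | h
    · have e1 : (k + 1) / c = k / c := by
        rw [Nat.div_eq_iff (by omega)]
        constructor
        · rw [mul_comm]; omega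
        · have : c * (k / c) + c = c * (k / c) + c := rfl
          rw [mul_comm (k / c)]; omega
      have e2 : (k + 1) % c = k % c + 1 := by
        have := Nat.div_add_mod (k + 1) c
        rw [e1] at this
        omega
      simp only [hp, e1, e2]
      rw [hσ (k / c) (min (k % c) (d (k / c))) (min (k % c + 1) (d (k / c))) (by omega) (by
        simp only [hd]; omega)]
      omega
    · have hr' : k % c + 1 = c := by omega
      have e0 : k + 1 = c * (k / c + 1) := by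
        rw [Nat.mul_add, Nat.mul_one]; omega
      rw [e0, hpx, ← σ1 (k / c)]
      simp only [hp]
      rw [hσ (k / c) (min (k % c) (d (k / c))) _ (by simp only [hd]; omega) le_rfl]
      have := hstep (k / c)
      simp only [hd]
      omega
  have lip : ∀ i j, i ≤ j → A.dist (p i) (p j) ≤ j - i := by
    intro i j hij
    obtain ⟨e, rfl⟩ := Nat.exists_eq_add_of_le hij
    induction e with
    | zero => simp
    | succ e ih =>
      have t1 := A.dist_triangle (p i) (p (i + e)) (p (i + (e + 1)))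
      have t2 := lip1 (i + e)
      have t3 := ih (by omega)
      have : i + e + 1 = i + (e + 1) := by omega
      rw [this] at t2
      omega
  have near : ∀ k, A.dist (x (k / c)) (p k) ≤ c := by
    intro k
    rw [← hpx]
    refine (lip _ _ (Nat.mul_div_le k c)).trans ?_
    have hk := Nat.div_add_mod k c
    have hr := Nat.mod_lt k (by omega : 0 < c)
    omega
  refine ⟨c * n, p, ?_, ?_, ?_, ?_⟩
  · intro k k' hkk' hk'
    refine ⟨lip k k' hkk', ?_⟩
    set D := A.dist (p k) (p k') with hD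
    set i := k / c with hi
    set i' := k' / c with hi'
    have hk : c * i + k % c = k := Nat.div_add_mod k c
    have hr := Nat.mod_lt k (by omega : 0 < c)
    have hk2 : c * i' + k' % c = k' := Nat.div_add_mod k' c
    have hr2 := Nat.mod_lt k' (by omega : 0 < c)
    have hii' : i ≤ i' := Nat.div_le_div_right hkk'
    have hi'n : i' ≤ n := by
      have := Nat.div_le_div_right (c := c) hk'
      rwa [Nat.mul_div_cancel_left n (by omega : 0 < c)] at this
    have hq1 := (hq _ (hmem i) _ (hmem i')).1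
    have hm1 := hn1 i' hi'n
    have hm2 : min (i : ℝ) L ≤ i := min_le_left _ _
    have hdx : A.dist (x i) (x i') ≤ D + 2 * c := by
      have t1 := A.dist_triangle (x i) (p k) (x i')
      have t2 := A.dist_triangle (p k) (p k') (x i')
      rw [A.dist_comm (p k') (x i')] at t2
      have t3 : A.dist (x i) (p k) ≤ c := near k
      have t4 : A.dist (x i') (p k') ≤ c := near k'
      omega
    have hdx' : (A.dist (x i) (x i') : ℝ) ≤ D + 2 * c := by exact_mod_cast hdx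
    have h1 : ((i' : ℝ) - 1 - i) / lam ≤ A.dist (x i) (x i') + eps := by
      have a1 : ((i' : ℝ) - 1 - i) / lam ≤ |min (i : ℝ) L - min (i' : ℝ) L| / lam := by
        apply div_le_div_of_nonneg_right _ (by linarith)
        rw [abs_sub_comm]
        exact (by linarith : (i' : ℝ) - 1 - i ≤ min (i' : ℝ) L - min (i : ℝ) L).trans
          (le_abs_self _)
      have : (A.dist (q (min (i : ℝ) L)) (q (min (i' : ℝ) L)) : ℝ) = A.dist (x i) (x i') := rfl
      linarith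
    have h2 : (i' : ℝ) - 1 - i ≤ c * (D + 3 * c) := by
      rw [div_le_iff₀ (by linarith)] at h1
      have b1 : (A.dist (x i) (x i') : ℝ) + eps ≤ D + 3 * c := by linarith
      have b2 : (0 : ℝ) ≤ A.dist (x i) (x i') + eps := by positivity
      have b3 : lam ≤ c := by linarith
      calc (i' : ℝ) - 1 - i ≤ (A.dist (x i) (x i') + eps) * lam := h1
        _ ≤ (D + 3 * c) * c := by
          apply mul_le_mul b1 b3 (by linarith) (by positivity)
        _ = c * (D + 3 * c) := by ring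
    have h3 : i' ≤ i + 1 + c * (D + 3 * c) := by
      have : (i' : ℝ) ≤ i + 1 + c * (D + 3 * c) := by linarith
      exact_mod_cast this
    have h4 : c * i' ≤ c * (i + 1 + c * (D + 3 * c)) := Nat.mul_le_mul_left c h3
    have h5 : c * (i + 1 + c * (D + 3 * c)) = c * i + c + (c ^ 2 * D + 3 * c ^ 3) := by ring
    have h6 : c ^ 2 * D ≤ (3 * c ^ 3 + 2 * c) * D := by
      apply Nat.mul_le_mul_right
      have := Nat.pow_le_pow_right hc1 (show 2 ≤ 3 by norm_num)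
      omega
    omega
  · have := hpx 0
    rw [Nat.mul_zero] at this
    rw [this, hx]
    simp [hL]
  · rw [hpx n, hx]
    simp only
    rw [min_eq_right hn0]
  · intro t ht
    have f1 := Nat.floor_le ht.1
    have f2 := Nat.lt_floor_add_one t
    refine ⟨c * ⌊t⌋₊, Nat.mul_le_mul_left c ?_, ?_⟩
    · have h1 : (⌊t⌋₊ : ℝ) ≤ n := by linarith [ht.2]
      exact_mod_cast h1
    · rw [hpx]
      simp only [hx]
      rw [min_eq_left (f1.trans ht.2)]
      have h1 := (hq t ht (⌊t⌋₊ : ℝ) ⟨Nat.cast_nonneg _, f1.trans ht.2⟩).2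
      have h2 : |t - (⌊t⌋₊ : ℝ)| ≤ 1 := by
        rw [abs_of_nonneg (by linarith)]; linarith
      have h3 : (A.dist (q t) (q (⌊t⌋₊ : ℝ)) : ℝ) ≤ c := by
        refine h1.trans ?_
        nlinarith
      exact_mod_cast h3

theorem isMorse_of_mset {ν : ℕ → ℕ} {T : Set ℕ} {γ : ℕ → G} (h : MSet A ν (γ '' T)) :
    IsMorse A (cont ν) T γ := by
  rintro lam eps L hlam heps hL q hq ⟨m, hm, h0⟩ ⟨m', hm', h1⟩ t ht
  obtain ⟨n, p, hp, p0, pn, hclose⟩ := tame hlam heps hL hq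
  obtain ⟨i, hi, hd⟩ := hclose t ht
  obtain ⟨v, ⟨k, hk, rfl⟩, hd'⟩ := h _ n p hp (by rw [p0, h0]; exact ⟨m, hm, rfl⟩)
    (by rw [pn, h1]; exact ⟨m', hm', rfl⟩) i hi
  refine ⟨k, hk, ?_⟩
  have t1 := A.dist_triangle (q t) (p i) (γ k)
  unfold cont
  exact_mod_cast (by omega : A.dist (q t) (γ k) ≤
    ν (3 * ⌈lam + eps⌉₊ ^ 3 + 2 * ⌈lam + eps⌉₊) + ⌈lam + eps⌉₊)

end Pool.Agent.TH98.SC
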