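import Pool.Agent.TH98.SC.Ray

/-! # Subsegments of Morse rays, fellow travelling, divergence -/

set_option autoImplicit false

namespace Pool.Agent.TH98.SC

open Pool.Agent.H659R3.MorseLim

variable {G : Type} [Group G] {A : FinGen G}

theorem crossing_aux {K n e : ℕ} {p : ℕ → G} (hp : IsPath A K n p) (v : ℕ → ℤ)
    (hv : ∀ i ≤ n, ∀ j ≤ n, |v i - v j| ≤ (A.dist (p i) (p j) : ℤ) + 2 * e)
    (hv' : ∀ i ≤ n, ∀ j ≤ n, (A.dist (p i) (p j) : ℤ) ≤ |v i - v j| + 2 * e)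
    (h0 : 0 ≤ v 0) (hn : 0 ≤ v n) {i : ℕ} (hi : i ≤ n) (hvi : v i < 0) :
    ∃ i₁ ≤ i, 0 ≤ v i₁ ∧ v i₁ ≤ 2 * e ∧ i - i₁ ≤ K * (4 * e) + K := by
  classical
  -- the last index before `i`
  have hne : ((Finset.range (i + 1)).filter fun j => 0 ≤ v j).Nonempty := by
    refine ⟨0, ?_⟩
    rw [Finset.mem_filter]
    exact ⟨by simp, h0⟩
  set i₁ := Finset.max' _ hne with hi₁
  have h1m := Finset.max'_mem _ hne
  rw [← hi₁, Finset.mem_filter, Finset.mem_range] at h1m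
  obtain ⟨h1a, h1b⟩ := h1m
  have h1i : i₁ < i := by
    rcases Nat.eq_or_lt_of_le (Nat.lt_succ_iff.1 h1a) with h | h
    · rw [h] at h1b; omega
    · exact h
  have h1c : v (i₁ + 1) < 0 := by
    by_contra hcon
    push Not at hcon
    have hmem : i₁ + 1 ∈ (Finset.range (i + 1)).filter fun j => 0 ≤ v j := by
      rw [Finset.mem_filter, Finset.mem_range]
      exact ⟨by omega, hcon⟩
    have := Finset.le_max' _ _ hmem
    omega
  -- the first index after `i`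
  have hne2 : ((Finset.Icc i n).filter fun j => 0 ≤ v j).Nonempty := by
    refine ⟨n, ?_⟩
    rw [Finset.mem_filter, Finset.mem_Icc]
    exact ⟨⟨hi, le_rfl⟩, hn⟩
  set i₂ := Finset.min' _ hne2 with hi₂
  have h2m := Finset.min'_mem _ hne2
  rw [← hi₂, Finset.mem_filter, Finset.mem_Icc] at h2m
  obtain ⟨⟨h2a, h2a'⟩, h2b⟩ := h2m
  have h2i : i < i₂ := by
    rcases Nat.eq_or_lt_of_le h2a with h | h
    · rw [← h] at h2b; omega
    · exact h
  have h2c : v (i₂ - 1) < 0 := by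
    by_contra hcon
    push Not at hcon
    have hmem : i₂ - 1 ∈ (Finset.Icc i n).filter fun j => 0 ≤ v j := by
      rw [Finset.mem_filter, Finset.mem_Icc]
      exact ⟨⟨by omega, by omega⟩, hcon⟩
    have := Finset.min'_le _ _ hmem
    omega
  have b1 := hv i₁ (by omega) (i₁ + 1) (by omega)
  have b1' := (hp i₁ (i₁ + 1) (by omega) (by omega)).1
  have b2 := hv i₂ (by omega) (i₂ - 1) (by omega)
  have b2' := (hp (i₂ - 1) i₂ (by omega) (by omega)).1
  rw [A.dist_comm] at b2'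
  have c1 : v i₁ ≤ 2 * e := by
    have := (abs_le.1 b1).2
    omega
  have c2 : v i₂ ≤ 2 * e := by
    have := (abs_le.1 b2).2
    omega
  have b3 := hv' i₁ (by omega) i₂ (by omega)
  have b4 : |v i₁ - v i₂| ≤ 2 * e := by
    rw [abs_le]; omega
  have b5 : A.dist (p i₁) (p i₂) ≤ 4 * e := by omega
  have b6 := (hp i₁ i₂ (by omega) (by omega)).2
  have b7 := Nat.mul_le_mul_left K b5
  exact ⟨i₁, h1i.le, h1b, c1, by omega⟩

/-- The gauge of a subsegment. -/
def sub (ν : ℕ → ℕ) (K : ℕ) : ℕ := K * (4 * ν K) + K + 3 * ν K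

/-- Subsegments of Morse geodesics are Morse. -/
theorem subsegment {ν : ℕ → ℕ} {α : ℕ → G} {T : Set ℕ} (hα : GeoOn A T α)
    (hM : MSet A ν (α '' T)) {a b : ℕ} (hT : ∀ i, a ≤ i → i ≤ b → i ∈ T) (hab : a ≤ b) :
    MSet A (sub ν) (α '' Set.Icc a b) := by
  classical
  rintro K n p hp ⟨s, ⟨hs1, hs2⟩, h0⟩ ⟨s', ⟨hs1', hs2'⟩, hn⟩ i hi
  set e := ν K with he
  have hcl : ∀ j, ∃ u, u ∈ T ∧ (j ≤ n → A.dist (p j) (α u) ≤ e) ∧ (j = 0 → u = s) ∧
      (j = n → n ≠ 0 → u = s') := by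
    intro j
    by_cases hj0 : j = 0
    · refine ⟨s, hT s hs1 hs2, fun _ => by rw [hj0, h0]; simp, fun _ => rfl, fun h h' => ?_⟩
      omega
    by_cases hjn : j = n
    · exact ⟨s', hT s' hs1' hs2', fun _ => by rw [hjn, hn]; simp, fun h => absurd h hj0,
        fun _ _ => rfl⟩
    by_cases hjn' : j ≤ n
    · obtain ⟨y, ⟨u, hu, rfl⟩, hd⟩ := hM K n p hp ⟨s, hT s hs1 hs2, h0⟩ ⟨s', hT s' hs1' hs2', hn⟩
        j hjn'
      exact ⟨u, hu, fun _ => hd, fun h => absurd h hj0, fun h => absurd h hjn⟩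
    · exact ⟨s, hT s hs1 hs2, fun h => absurd h hjn', fun _ => rfl, fun h => absurd h hjn⟩
  choose u huT hud hu0 hun using hcl
  have hun' : a ≤ u n ∧ u n ≤ b := by
    by_cases h : n = 0
    · have := hu0 n h
      omega
    · have := hun n rfl h
      omega
  have hu0' : a ≤ u 0 ∧ u 0 ≤ b := by
    have := hu0 0 rfl
    omega
  have hv1 : ∀ i ≤ n, ∀ j ≤ n, |(u i : ℤ) - u j| ≤ (A.dist (p i) (p j) : ℤ) + 2 * e := by
    intro i hi j hj
    rw [← hα.abs (huT i) (huT j)]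
    have a1 := hud i hi
    have a2 := hud j hj
    have t1 := A.dist_triangle (α (u i)) (p i) (α (u j))
    have t2 := A.dist_triangle (p i) (p j) (α (u j))
    rw [A.dist_comm (α (u i)) (p i)] at t1
    omega
  have hv2 : ∀ i ≤ n, ∀ j ≤ n, (A.dist (p i) (p j) : ℤ) ≤ |(u i : ℤ) - u j| + 2 * e := by
    intro i hi j hj
    rw [← hα.abs (huT i) (huT j)]
    have a1 := hud i hi
    have a2 := hud j hj
    have t1 := A.dist_triangle (p i) (α (u i)) (p j)
    have t2 := A.dist_triangle (α (u i)) (α (u j)) (p j)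
    rw [A.dist_comm (α (u j)) (p j)] at t2
    omega
  have hsub : sub ν K = K * (4 * e) + K + 3 * e := rfl
  rcases Nat.lt_or_ge (u i) a with hlt | hge
  · obtain ⟨i₁, h1, h2, h3, h4⟩ := crossing_aux hp (fun j => (u j : ℤ) - a)
      (fun i hi j hj => by
        have e1 : (u i : ℤ) - a - (u j - a) = u i - u j := by ring
        rw [e1]; exact hv1 i hi j hj)
      (fun i hi j hj => by
        have e1 : (u i : ℤ) - a - (u j - a) = u i - u j := by ring
        rw [e1]; exact hv2 i hi j hj)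
      (by omega) (by omega) hi (by omega)
    have t1 := A.dist_triangle (p i) (p i₁) (α (u i₁))
    have t2 := (hp i₁ i h1 hi).1
    rw [A.dist_comm] at t2
    have t3 := hud i₁ (by omega)
    rcases le_total (u i₁) b with h5 | h5
    · exact ⟨α (u i₁), ⟨u i₁, ⟨by omega, h5⟩, rfl⟩, by omega⟩
    · refine ⟨α b, ⟨b, ⟨hab, le_rfl⟩, rfl⟩, ?_⟩
      have t4 := A.dist_triangle (p i) (α (u i₁)) (α b)
      have t5 := hα b (hT b hab le_rfl) (u i₁) (huT i₁) h5
      rw [A.dist_comm] at t5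
      omega
  rcases Nat.lt_or_ge b (u i) with hlt | hge'
  · obtain ⟨i₁, h1, h2, h3, h4⟩ := crossing_aux hp (fun j => (b : ℤ) - u j)
      (fun i hi j hj => by
        have e1 : (b : ℤ) - u i - (b - u j) = u j - u i := by ring
        rw [e1, A.dist_comm]; exact hv1 j hj i hi)
      (fun i hi j hj => by
        have e1 : (b : ℤ) - u i - (b - u j) = u j - u i := by ring
        rw [e1, A.dist_comm]; exact hv2 j hj i hi)
      (by omega) (by omega) hi (by omega)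
    have t1 := A.dist_triangle (p i) (p i₁) (α (u i₁))
    have t2 := (hp i₁ i h1 hi).1
    rw [A.dist_comm] at t2
    have t3 := hud i₁ (by omega)
    rcases le_total a (u i₁) with h5 | h5
    · exact ⟨α (u i₁), ⟨u i₁, ⟨h5, by omega⟩, rfl⟩, by omega⟩
    · refine ⟨α a, ⟨a, ⟨le_rfl, hab⟩, rfl⟩, ?_⟩
      have t4 := A.dist_triangle (p i) (α (u i₁)) (α a)
      have t5 := hα (u i₁) (huT i₁) a (hT a le_rfl hab) h5
      omega
  · exact ⟨α (u i), ⟨u i, ⟨hge, hge'⟩, rfl⟩, by have := hud i hi; omega⟩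

/-- A Morse geodesic is close to any geodesic with nearby endpoints. -/
theorem fellow {ν : ℕ → ℕ} {α : ℕ → G} {T : Set ℕ} (hα : GeoOn A T α) (hM : MSet A ν (α '' T))
    {n D n' : ℕ} {η : ℕ → G} (h0T : 0 ∈ T) (hnT : n ∈ T) (hη : IsGeo A n' η)
    (h0 : A.dist (η 0) (α 0) ≤ D) (hn : A.dist (η n') (α n) ≤ D) :
    ∀ s ≤ n, s ∈ T → ∃ i ≤ n', A.dist (α s) (η i) ≤ 3 * max D (ν (1 + 2 * D * 2)) + 1 := by
  classical
  set c := max D (ν (1 + 2 * D * 2)) with hc
  have hcl : ∀ j, ∃ u, u ∈ T ∧ (j ≤ n' → A.dist (η j) (α u) ≤ c) ∧ (j = 0 → u = 0) ∧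
      (j = n' → n' ≠ 0 → u = n) := by
    intro j
    by_cases hj0 : j = 0
    · refine ⟨0, h0T, fun _ => by rw [hj0]; exact h0.trans (le_max_left _ _), fun _ => rfl,
        fun h h' => ?_⟩
      omega
    by_cases hjn : j = n'
    · exact ⟨n, hnT, fun _ => by rw [hjn]; exact hn.trans (le_max_left _ _),
        fun h => absurd h hj0, fun _ _ => rfl⟩
    by_cases hjn' : j ≤ n'
    · obtain ⟨y, ⟨u, hu, rfl⟩, hd⟩ := (hM _).near (K := 1) le_rfl (hη.isPath le_rfl)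
        ⟨α 0, ⟨0, h0T, rfl⟩, h0⟩ ⟨α n, ⟨n, hnT, rfl⟩, hn⟩ hjn'
      exact ⟨u, hu, fun _ => hd.trans (le_max_right _ _), fun h => absurd h hj0,
        fun h => absurd h hjn⟩
    · exact ⟨0, h0T, fun h => absurd h hjn', fun _ => rfl, fun h => absurd h hjn⟩
  choose u huT hud hu0 hun using hcl
  intro s hs hsT
  by_cases hn0 : n' = 0
  · -- degenerate case
    refine ⟨0, Nat.zero_le _, ?_⟩
    rw [hn0] at hn
    have h1 := hα 0 h0T n hnT (Nat.zero_le _)
    have t1 := A.dist_triangle (α 0) (η 0) (α n)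
    rw [A.dist_comm (α 0) (η 0)] at t1
    have t2 := A.dist_triangle (α s) (α 0) (η 0)
    have h2 := hα 0 h0T s hsT (Nat.zero_le _)
    rw [A.dist_comm (α s) (α 0), A.dist_comm (α 0) (η 0)] at t2
    have : D ≤ c := le_max_left _ _
    omega
  have hne : ((Finset.range (n' + 1)).filter fun j => u j ≤ s).Nonempty := by
    refine ⟨0, ?_⟩
    rw [Finset.mem_filter]
    exact ⟨by simp, by rw [hu0 0 rfl]; exact Nat.zero_le _⟩
  set i := Finset.max' _ hne with hi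
  have him := Finset.max'_mem _ hne
  rw [← hi, Finset.mem_filter, Finset.mem_range] at him
  obtain ⟨hin, hui⟩ := him
  have h1 := hα (u i) (huT i) s hsT hui
  have d1 := hud i (by omega)
  rcases Nat.eq_or_lt_of_le (Nat.lt_succ_iff.1 hin) with h | h
  · refine ⟨n', le_rfl, ?_⟩
    have h2 := hun i h hn0
    have : s = n := by omega
    rw [this, A.dist_comm]
    exact hn.trans (by have : D ≤ c := le_max_left _ _; omega)
  · have hlt : s < u (i + 1) := by
      by_contra hcon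
      push Not at hcon
      have hmem : i + 1 ∈ (Finset.range (n' + 1)).filter fun j => u j ≤ s := by
        rw [Finset.mem_filter, Finset.mem_range]
        exact ⟨by omega, hcon⟩
      have := Finset.le_max' _ _ hmem
      omega
    refine ⟨i, by omega, ?_⟩
    have d2 := hud (i + 1) (by omega)
    have h3 := hη i (i + 1) (by omega) (by omega)
    have h4 := hα (u i) (huT i) (u (i + 1)) (huT _) (by omega)
    have t1 := A.dist_triangle (α (u i)) (η i) (α (u (i + 1)))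
    have t2 := A.dist_triangle (η i) (η (i + 1)) (α (u (i + 1)))
    have t3 := A.dist_triangle (α s) (α (u i)) (η i)
    rw [A.dist_comm (α (u i)) (η i)] at t1 t3
    rw [A.dist_comm (α s) (α (u i))] at t3
    omega

/-- The rays `E`, `E'` diverge. -/
def Dvg (A : FinGen G) (E E' : ℕ → G) : Prop :=
  ∀ C : ℕ, ∃ C' : ℕ, ∀ s s', A.dist (E s) (E' s') ≤ C → s ≤ C'

theorem close_of_not_dvg {ν : ℕ → ℕ} {E E' : ℕ → G} (hE : ∀ n, IsGeo A n E)
    (hM : MSet A ν (Set.range E')) (h : ¬ Dvg A E E') :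
    ∃ C, ∀ s, ∃ s', A.dist (E s) (E' s') ≤ C := by
  unfold Dvg at h
  push Not at h
  obtain ⟨C, hC⟩ := h
  set C₀ := max C (A.dist (E 0) (E' 0)) with hC₀
  refine ⟨ν (1 + 2 * C₀ * 2), fun s => ?_⟩
  obtain ⟨t, t', hd, hst⟩ := hC s
  obtain ⟨y, ⟨s', rfl⟩, hy⟩ := (hM _).near (K := 1) le_rfl ((hE t).isPath le_rfl)
    ⟨E' 0, ⟨0, rfl⟩, le_max_right _ _⟩ ⟨E' t', ⟨t', rfl⟩, hd.trans (le_max_left _ _)⟩ hst.le
  exact ⟨s', hy⟩

/-- Tails of asymptotic rays are uniformly close. -/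
theorem tail_close {ν : ℕ → ℕ} {E E' : ℕ → G} (hE : ∀ n, IsGeo A n E)
    (hM : MSet A ν (Set.range E')) {C : ℕ} (h : ∀ s, ∃ s', A.dist (E s) (E' s') ≤ C) :
    ∀ t, 2 * C ≤ t → ∃ s', A.dist (E t) (E' s') ≤ ν 3 := by
  intro t ht
  set T := t + 8 * C with hT
  obtain ⟨a, ha⟩ := h 0
  obtain ⟨b, hb⟩ := h T
  have key : ∀ z : G, ∃ τ ≤ T, ∀ s ≤ T, A.dist (E τ) z ≤ A.dist (E s) z := by
    intro z
    obtain ⟨t, ht, hmin⟩ := Finset.exists_min_image (Finset.range (T + 1))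
      (fun i => A.dist (E i) z) ⟨0, by simp⟩
    rw [Finset.mem_range] at ht
    exact ⟨t, by omega, fun s hs => hmin s (Finset.mem_range.2 (by omega))⟩
  obtain ⟨τ₁, h1, m1⟩ := key (E' a)
  obtain ⟨τ₂, h2, m2⟩ := key (E' b)
  have d1 := m1 0 (Nat.zero_le _)
  have d2 := m2 T le_rfl
  have l1 : τ₁ ≤ 2 * C := by
    have t1 := A.dist_triangle (E 0) (E' a) (E τ₁)
    rw [A.dist_comm (E' a) (E τ₁), hE T 0 τ₁ (Nat.zero_le _) h1] at t1
    omega
  have l2 : T ≤ τ₂ + 2 * C := by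
    have t1 := A.dist_triangle (E τ₂) (E' b) (E T)
    rw [A.dist_comm (E' b) (E T), hE T τ₂ T h2 le_rfl] at t1
    omega
  obtain ⟨σx, hσx, x0, x1⟩ := exists_geo A (E' a) (E τ₁)
  obtain ⟨σy, hσy, y0, y1⟩ := exists_geo A (E τ₂) (E' b)
  have c1 : A.dist (E' a) (E τ₁) ≤ C := by rw [A.dist_comm]; exact d1.trans ha
  have c2 : A.dist (E τ₂) (E' b) ≤ C := d2.trans hb
  obtain ⟨q, hq, q1, q2, q3⟩ := near_both (K := 1) (n := τ₂ - τ₁) (p := fun i => E (τ₁ + i))
    (((hE T).isPath le_rfl).shift (by omega)) hσx hσy (by simpa using x1)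
    (by rw [y0]; congr 1; omega) (by
      intro i hi
      rw [x0, A.dist_comm, A.dist_comm (E' a)]
      exact m1 _ (by omega)) (by
      intro i hi
      rw [y1]
      exact m2 _ (by omega)) (by
      right; right
      simp only [Nat.add_zero]
      have : τ₁ + (τ₂ - τ₁) = τ₂ := by omega
      rw [this, hE T τ₁ τ₂ (by omega) h2]
      omega)
  obtain ⟨y, ⟨s', rfl⟩, hd⟩ := hM 3 _ q hq (by rw [q1 0 (Nat.zero_le _), x0]; exact ⟨a, rfl⟩)
    (by rw [q3 _ le_rfl, y1]; exact ⟨b, rfl⟩) (A.dist (E' a) (E τ₁) + (t - τ₁)) (by omega)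
  rw [q2 _ (by omega)] at hd
  have : τ₁ + (t - τ₁) = t := by omega
  rw [this] at hd
  exact ⟨s', hd⟩

end Pool.Agent.TH98.SC
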