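import Pool.Agent.TH98.SC.Geom
import Pool.Agent.TH98.SC.Def
import Pool.Agent.H659R3.MorseLim.Boundary

/-! # Strongly sigma-compact Morse boundaries -/

set_option autoImplicit false

namespace Pool.Agent.TH98.SC

open Pool.Agent.H659R3.MorseLim Filter Topology CategoryTheory

/-- A countable increasing compact exhaustion which determines the topology. -/
theorem exists_exhaustion {X : Type} [TopologicalSpace X] (h : StronglySigmaCompact X)
    (hT : ∀ x : X, IsClosed ({x} : Set X)) :
    ∃ C : ℕ → Set X, Monotone C ∧ (∀ n, IsCompact (C n)) ∧ (∀ x, ∃ n, x ∈ C n) ∧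
      ∀ S : Set X, (∀ n, (S ∩ C n).Finite) → IsClosed S := by
  classical
  obtain ⟨J, _, _, _, _, F, c, ⟨hc⟩, hF, ⟨e⟩⟩ := h
  have := Encodable.ofCountable J
  have : Inhabited J := Classical.inhabited_of_nonempty inferInstance
  have hdir : Directed (· ≤ ·) (id : J → J) := directed_id
  set s : ℕ → J := hdir.sequence id with hs
  have hsm : Monotone s := hdir.sequence_mono
  have hsr : ∀ j : J, j ≤ s (Encodable.encode j + 1) := fun j => hdir.le_sequence j
  set C : ℕ → Set X := fun n => Set.range (fun x : F.obj (s n) => e (c.ι.app (s n) x)) with hC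
  have hcont : ∀ j, Continuous (fun x : F.obj j => e (c.ι.app j x)) := fun j =>
    e.continuous.comp (c.ι.app j).hom.continuous
  have hincl : ∀ i j : J, i ≤ j → Set.range (fun x : F.obj i => e (c.ι.app i x)) ⊆
      Set.range (fun x : F.obj j => e (c.ι.app j x)) := by
    rintro i j hij _ ⟨x, rfl⟩
    refine ⟨F.map (homOfLE hij) x, ?_⟩
    simp only
    congr 1
    have := c.w (homOfLE hij)
    rw [← this]
    rfl
  refine ⟨C, fun a b hab => hincl _ _ (hsm hab), fun n => ?_, fun x => ?_, fun S hS => ?_⟩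
  · have := hF (s n)
    exact isCompact_range (hcont (s n))
  · obtain ⟨j, y, hy⟩ := Limits.Types.jointly_surjective_of_isColimit
      (Limits.isColimitOfPreserves (forget TopCat) hc) (e.symm x)
    refine ⟨Encodable.encode j + 1, hincl j _ (hsr j) ⟨y, ?_⟩⟩
    have hy' : c.ι.app j y = e.symm x := hy
    simp only [hy', Homeomorph.apply_symm_apply]
  · have h1 : IsClosed (e ⁻¹' S) := by
      rw [TopCat.isClosed_iff_of_isColimit _ hc]
      intro j
      obtain ⟨n, hn⟩ : ∃ n, j ≤ s n := ⟨_, hsr j⟩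
      have e1 : (c.ι.app j) ⁻¹' (e ⁻¹' S) = (fun x : F.obj j => e (c.ι.app j x)) ⁻¹' (S ∩ C n) := by
        ext x
        constructor
        · intro hx
          exact ⟨hx, hincl j (s n) hn ⟨x, rfl⟩⟩
        · intro hx
          exact hx.1
      rw [e1]
      refine IsClosed.preimage (hcont j) ?_
      have := (hS n).isClosed_biUnion (f := fun x => ({x} : Set X)) (fun x _ => hT x)
      rwa [Set.biUnion_of_singleton] at this
    have := h1.preimage e.symm.continuous
    simpa using this

variable {G : Type} [Group G] {A : FinGen G}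

/-- The stratum of the Morse boundary defined by a gauge. -/
def stratum (A : FinGen G) (N : Gauge) : Set (MorseBoundary A) := {ξ | ∃ γ : NRay A N, γ.cls = ξ}

/-- Rays from `1` at finite distance from an `N`-Morse ray are uniformly close to it. -/
theorem close_N {N : Gauge} {γ : ℕ → G} (hγ : GeoOn A Set.univ γ) (hγ0 : γ 0 = 1)
    (γ' : NRay A N) (h : FinHaus A γ γ'.path) :
    ∀ t, A.dist (γ t) (γ'.path t) ≤ 2 * disc N 3 := by
  have hM : MSet A (disc N) (Set.range γ'.path) := by
    have := mset_of_isMorse γ'.morse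
    rwa [Set.image_univ] at this
  obtain ⟨C, hC, -⟩ := h
  exact uniform_close hγ (geoOn_of_isGeod γ'.geod) (by rw [hγ0, γ'.zero]) hM (C := C) hC

theorem isClosed_of_strata_finite (S : Set (MorseBoundary A))
    (h : ∀ N : Gauge, (S ∩ stratum A N).Finite) : IsClosed S := by
  classical
  rw [← isOpen_compl_iff, isOpen_boundary_iff]
  intro N γ hγ
  have key : ∀ ξ ∈ S ∩ stratum A N, ∃ n : ℕ, ∀ γ' : NRay A N,
      (∀ k ≤ n, γ'.path k = γ.path k) → γ'.cls ≠ ξ := by
    rintro ξ ⟨hξS, -⟩
    by_contra hcon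
    push Not at hcon
    choose γ' h1 h2 using hcon
    apply hγ
    have : γ.cls = ξ := by
      rw [← h2 0]
      apply Quotient.sound (s := raySetoid A)
      refine finHaus_of_pointwise (D := 2 * disc N 3) fun n => ?_
      have h3 : FinHaus A (γ' n).path (γ' 0).path := by
        have : (γ' n).cls = (γ' 0).cls := by rw [h2, h2]
        exact Quotient.exact (s := raySetoid A) this
      have := close_N (geoOn_of_isGeod (γ' n).geod) (γ' n).zero (γ' 0) h3 n
      rwa [h1 n n le_rfl] at this
    rw [this]; exact hξS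
  choose! f hf using key
  refine ⟨(h N).toFinset.sup f, fun γ' hγ' hcon => ?_⟩
  have hmem : γ'.cls ∈ S ∩ stratum A N := ⟨hcon, γ', rfl⟩
  refine hf _ hmem γ' (fun k hk => hγ' k (hk.trans ?_)) rfl
  exact Finset.le_sup (f := f) ((Set.Finite.mem_toFinset (h N)).2 hmem)

theorem isClosed_point (ξ : MorseBoundary A) : IsClosed ({ξ} : Set (MorseBoundary A)) :=
  isClosed_of_strata_finite _ fun _ => (Set.finite_singleton ξ).subset Set.inter_subset_left

/-- A set all of whose subsets are closed meets a compact set in a finite set. -/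
theorem finite_of_closed {X : Type} [TopologicalSpace X] {S K : Set X} (hK : IsCompact K)
    (hSK : S ⊆ K) (h : ∀ S' ⊆ S, IsClosed S') : S.Finite := by
  by_contra hinf
  obtain ⟨x, -, hx⟩ := Set.Infinite.exists_accPt_of_subset_isCompact hinf hK hSK
  rw [accPt_principal_iff_clusterPt, ← mem_closure_iff_clusterPt,
    (h (S \ {x}) Set.sdiff_subset).closure_eq] at hx
  exact hx.2 rfl

/-- Compact subsets of the Morse boundary lie in a stratum. -/
theorem compact_in_stratum {K : Set (MorseBoundary A)} (hK : IsCompact K) :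
    ∃ N : Gauge, K ⊆ stratum A N := by
  classical
  choose ρ hρ using fun ξ : MorseBoundary A => Quotient.exists_rep (s := raySetoid A) ξ
  set B : MorseBoundary A → ℝ → ℝ → ℕ → Prop := fun ξ lam eps n => ∀ L : ℝ, 0 ≤ L →
    ∀ q : ℝ → G, IsQuasiGeod A lam eps L q → (∃ m, q 0 = (ρ ξ).path m) →
      (∃ m, q L = (ρ ξ).path m) → ∀ t ∈ Set.Icc 0 L, ∃ m, (A.dist (q t) ((ρ ξ).path m) : ℝ) ≤ n
    with hB
  have Bmono : ∀ ξ lam eps n n', n ≤ n' → B ξ lam eps n → B ξ lam eps n' := by
    intro ξ lam eps n n' hn h L hL q hq h0 h1 t ht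
    obtain ⟨m, hm⟩ := h L hL q hq h0 h1 t ht
    exact ⟨m, hm.trans (by exact_mod_cast hn)⟩
  have Bof : ∀ ξ N, IsMorse A N Set.univ (ρ ξ).path → ∀ lam eps : ℝ, 1 ≤ lam → 0 ≤ eps →
      ∀ n : ℕ, N lam eps ≤ n → B ξ lam eps n := by
    intro ξ N hN lam eps hlam heps n hn L hL q hq ⟨m, hm⟩ ⟨m', hm'⟩ t ht
    obtain ⟨k, -, hk⟩ := hN lam eps L hlam heps hL q hq ⟨m, trivial, hm⟩ ⟨m', trivial, hm'⟩ t ht
    exact ⟨k, hk.trans hn⟩
  by_cases hall : ∀ lam eps : ℝ, ∃ n : ℕ, 1 ≤ lam → 0 ≤ eps → ∀ ξ ∈ K, B ξ lam eps n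
  · choose n hn using hall
    refine ⟨fun lam eps => (n lam eps : ℝ), fun ξ hξ => ?_⟩
    refine ⟨⟨(ρ ξ).path, (ρ ξ).zero, (ρ ξ).geod, ?_⟩, hρ ξ⟩
    rintro lam eps L hlam heps hL q hq ⟨m, -, hm⟩ ⟨m', -, hm'⟩ t ht
    obtain ⟨k, hk⟩ := hn lam eps hlam heps ξ hξ L hL q hq ⟨m, hm⟩ ⟨m', hm'⟩ t ht
    exact ⟨k, trivial, hk⟩
  · exfalso
    push Not at hall
    obtain ⟨lam, eps, hall⟩ := hall
    choose hlam heps ξ hξK hξ using hall
    have hlam := hlam 0
    have heps := heps 0
    have hsub : ∀ S' ⊆ Set.range ξ, IsClosed S' := by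
      intro S' hS'
      refine isClosed_of_strata_finite S' fun N => ?_
      obtain ⟨n₀, hn₀⟩ := exists_nat_ge (N lam (eps + 2 * (2 * disc N 3 : ℕ)) + (2 * disc N 3 : ℕ))
      refine ((Set.finite_Iio n₀).image ξ).subset ?_
      rintro x ⟨hx, γ', hγ'⟩
      obtain ⟨n, rfl⟩ := hS' hx
      refine ⟨n, ?_, rfl⟩
      rw [Set.mem_Iio]
      by_contra hge
      push Not at hge
      apply hξ n
      have h3 : FinHaus A (ρ (ξ n)).path γ'.path := by
        have : γ'.cls = (ρ (ξ n)).cls := by rw [hγ']; exact (hρ (ξ n)).symm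
        exact (Quotient.exact (s := raySetoid A) this).symm
      have h4 := close_N (geoOn_of_isGeod (ρ (ξ n)).geod) (ρ (ξ n)).zero γ' h3
      have h5 := γ'.morse.stable (α := (ρ (ξ n)).path) (D := ((2 * disc N 3 : ℕ) : ℝ))
        (fun m _ => by exact_mod_cast h4 m)
      exact Bof _ _ h5 lam eps hlam heps n (hn₀.trans (by exact_mod_cast hge))
    have hfin := finite_of_closed hK (by rintro _ ⟨n, rfl⟩; exact hξK n) hsub
    -- each point is good for some `n`
    have hgood : ∀ x : MorseBoundary A, ∃ n : ℕ, B x lam eps n := by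
      intro x
      obtain ⟨N, hN⟩ := (ρ x).morse
      obtain ⟨n, hn⟩ := exists_nat_ge (N lam eps)
      exact ⟨n, Bof x N hN lam eps hlam heps n hn⟩
    choose f hf using hgood
    have h1 : ξ (hfin.toFinset.sup f) ∈ hfin.toFinset := by
      rw [Set.Finite.mem_toFinset]; exact ⟨_, rfl⟩
    exact hξ _ (Bmono _ _ _ _ _ (Finset.le_sup (f := f) h1) (hf _))

/-- The strata are compact. -/
theorem isCompact_stratum (N : Gauge) : IsCompact (stratum A N) := by
  classical
  let _ : TopologicalSpace G := ⊥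
  have : DiscreteTopology G := ⟨rfl⟩
  have hind : IsInducing (fun γ : NRay A N => γ.path) := ⟨rfl⟩
  have hcomp : IsCompact (Set.univ : Set (NRay A N)) := by
    rw [hind.isCompact_iff, Set.image_univ]
    have hK : IsCompact (Set.pi Set.univ fun n : ℕ => {g : G | A.len g ≤ n}) :=
      isCompact_univ_pi fun n => (ball_finite A n).isCompact
    refine hK.of_isClosed_subset ?_ ?_
    · rw [← closure_subset_iff_isClosed]
      intro f hf
      rw [mem_closure_iff] at hf
      have happ : ∀ n : ℕ, ∃ γ : NRay A N, ∀ k ≤ n, γ.path k = f k := by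
        intro n
        obtain ⟨_, h1, γ, rfl⟩ := hf (Set.pi (Set.Iic n) fun k => {f k})
          (isOpen_set_pi (Set.finite_Iic n) fun k _ => isOpen_discrete _)
          (fun k _ => rfl)
        exact ⟨γ, fun k hk => h1 k hk⟩
      have h0 : f 0 = 1 := by
        obtain ⟨γ, hγ⟩ := happ 0
        rw [← hγ 0 le_rfl, γ.zero]
      have hg : IsGeod A Set.univ f := by
        intro m _ n _
        obtain ⟨γ, hγ⟩ := happ (max m n)
        rw [← hγ m (le_max_left _ _), ← hγ n (le_max_right _ _)]
        exact γ.geod m trivial n trivial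
      refine ⟨⟨f, h0, hg, ?_⟩, rfl⟩
      rintro lam eps L hlam heps hL q hq ⟨m, -, hm⟩ ⟨m', -, hm'⟩ t ht
      obtain ⟨γ, hγ⟩ := happ (max (max m m') (A.dist 1 (q t) + ⌈N lam eps⌉₊))
      obtain ⟨k, -, hk⟩ := γ.morse lam eps L hlam heps hL q hq
        ⟨m, trivial, by rw [hγ m (le_trans (le_max_left _ _) (le_max_left _ _)), hm]⟩
        ⟨m', trivial, by rw [hγ m' (le_trans (le_max_right _ _) (le_max_left _ _)), hm']⟩ t ht
      refine ⟨k, trivial, ?_⟩
      rw [← hγ k]
      · exact hk
      · refine le_trans ?_ (le_max_right _ _)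
        have h1 : A.dist (q t) (γ.path k) ≤ ⌈N lam eps⌉₊ := by
          exact_mod_cast hk.trans (Nat.le_ceil _)
        have h2 := dist_zero_eq γ.geod (Set.mem_univ 0) (Set.mem_univ k)
        rw [γ.zero] at h2
        have := A.dist_triangle 1 (q t) (γ.path k)
        omega
    · rintro _ ⟨γ, rfl⟩ n -
      have h2 := dist_zero_eq γ.geod (Set.mem_univ 0) (Set.mem_univ n)
      rw [γ.zero, A.dist_one_left] at h2
      exact h2.le
  have hcls : Continuous (fun γ : NRay A N => γ.cls) := by
    rw [continuous_iff_coinduced_le]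
    exact le_iSup (fun N : Gauge =>
      TopologicalSpace.coinduced (fun γ : NRay A N => γ.cls) inferInstance) N
  have : stratum A N = (fun γ : NRay A N => γ.cls) '' Set.univ := by
    ext ξ
    simp [stratum]
  rw [this]
  exact hcomp.image hcls

/-- A countable cofinal family of gauges. -/
theorem countable_gauges (h : StronglySigmaCompact (MorseBoundary A)) :
    ∃ N : ℕ → Gauge, ∀ M : Gauge, ∃ i, stratum A M ⊆ stratum A (N i) := by
  classical
  obtain ⟨C, hmono, hcomp, hcov, hcl⟩ := exists_exhaustion h isClosed_point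
  choose N hN using fun n => compact_in_stratum (hcomp n)
  refine ⟨N, fun M => ?_⟩
  suffices hs : ∃ i, stratum A M ⊆ C i by
    obtain ⟨i, hi⟩ := hs
    exact ⟨i, hi.trans (hN i)⟩
  by_contra hcon
  push Not at hcon
  choose z hzM hzC using fun i => Set.not_subset.1 (hcon i)
  have hsub : ∀ S' ⊆ Set.range z, IsClosed S' := by
    intro S' hS'
    refine hcl S' fun n => ?_
    refine ((Set.finite_Iio n).image z).subset ?_
    rintro x ⟨hx, hxn⟩
    obtain ⟨i, rfl⟩ := hS' hx
    refine ⟨i, ?_, rfl⟩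
    rw [Set.mem_Iio]
    by_contra hge
    push Not at hge
    exact hzC i (hmono hge hxn)
  have hfin := finite_of_closed (isCompact_stratum M) (by rintro _ ⟨n, rfl⟩; exact hzM n) hsub
  choose f hf using hcov
  have h1 : z (hfin.toFinset.sup f) ∈ hfin.toFinset := by
    rw [Set.Finite.mem_toFinset]; exact ⟨_, rfl⟩
  exact hzC _ (hmono (Finset.le_sup (f := f) h1) (hf _))

/-- A finitely generated group with infinite strongly sigma-compact Morse boundary contains a
nonabelian free subgroup. -/
theorem free_of_stronglySigmaCompact (hinf : Infinite (MorseBoundary A))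
    (h : StronglySigmaCompact (MorseBoundary A)) :
    ∃ f : FreeGroup Bool →* G, Function.Injective f := by
  obtain ⟨N, hN⟩ := countable_gauges h
  refine geom hinf N fun M => ?_
  obtain ⟨i, hi⟩ := hN M
  exact ⟨i, fun γ => hi ⟨γ, rfl⟩⟩

end Pool.Agent.TH98.SC
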