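import Pool.Agent.TH98.SC.Alph

/-! # Words in the letters, and chains -/

set_option autoImplicit false

namespace Pool.Agent.TH98.SC

open Pool.Agent.H659R3.MorseLim Filter

variable {G : Type} [Group G] {A : FinGen G}

/-- Prefix products. -/
def pre (φ : Lt → G) (y : ℕ → Lt) : ℕ → G
  | 0 => 1
  | k + 1 => pre φ y k * φ (y k)

/-- The word `y 0, ..., y (m - 1)` is reduced. -/
def Red (m : ℕ) (y : ℕ → Lt) : Prop := ∀ k, k + 1 < m → y (k + 1) ≠ (y k).bar

theorem pre_shift (φ : Lt → G) (y : ℕ → Lt) (i k : ℕ) :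
    pre φ y (i + k) = pre φ y i * pre φ (fun n => y (i + n)) k := by
  induction k with
  | zero => simp [pre]
  | succ k ih =>
    rw [← Nat.add_assoc, pre, ih, pre, mul_assoc]

theorem pre_congr (φ : Lt → G) {y y' : ℕ → Lt} {m : ℕ} (h : ∀ k < m, y k = y' k) :
    pre φ y m = pre φ y' m := by
  induction m with
  | zero => rfl
  | succ m ih =>
    rw [pre, pre, ih (fun k hk => h k (by omega)), h m (by omega)]

variable {ν : ℕ → ℕ} {C' C₁ l : ℕ} (D : Alph A ν C' C₁ l)

/-- The pieces of a word, with a ray at the end. -/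
def QQ (m : ℕ) (y : ℕ → Lt) (k : ℕ) : Set G :=
  (fun x => pre D.φ y k * x) '' (if k < m then D.P (y k) else
    insert 1 (Set.range (D.E (y (m - 1)))))

theorem Lt.bar_ne (x : Lt) : x.bar ≠ x := by
  intro h
  have := congrArg Prod.snd h
  simp only [Lt.bar] at this
  revert this
  cases x.2 <;> decide

theorem chain_of_red (hν : Monotone ν) {m : ℕ} {y : ℕ → Lt} (hm : 1 ≤ m) (hred : Red m y) :
    Chain A ν C' l m (QQ D m y) (fun k => pre D.φ y (k + 1)) where
  mono := hν
  morse := by
    intro k hk
    rcases Nat.lt_or_ge k m with h | h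
    · simp only [QQ, h, if_true]
      exact (D.morseP _).left _
    · have : ¬ k < m := by omega
      simp only [QQ, this, if_false]
      exact (D.morseE _).left _
  memL := by
    intro k hk
    simp only [QQ, hk, if_true]
    exact ⟨D.φ (y k), D.φ_mem _, rfl⟩
  memR := by
    intro k hk
    refine ⟨1, ?_, by simp⟩
    split_ifs
    · exact D.one_mem _
    · exact Or.inl rfl
  junc := by
    rintro k hk v hv v' hv' hd
    simp only [QQ, hk, if_true] at hv
    obtain ⟨w, hw, rfl⟩ := hv
    obtain ⟨w', hw', rfl⟩ := hv'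
    have e1 : pre D.φ y (k + 1) = pre D.φ y k * D.φ (y k) := rfl
    have hw2 : (D.φ (y k))⁻¹ * w ∈ D.P (y k).bar := by
      rw [D.P_bar]; simpa using hw
    have e2 : pre D.φ y k * w = pre D.φ y (k + 1) * ((D.φ (y k))⁻¹ * w) := by
      rw [e1]; group
    have e3 : A.dist (pre D.φ y k * w) (pre D.φ y (k + 1)) = A.dist ((D.φ (y k))⁻¹ * w) 1 := by
      rw [e2]
      conv_lhs => rw [← mul_one (pre D.φ y (k + 1)), mul_assoc, one_mul]
      rw [A.dist_mul_left]
    simp only at hd ⊢
    rw [e3]
    rw [e2, A.dist_mul_left] at hd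
    rcases Nat.lt_or_ge (k + 1) m with h | h
    · simp only [h, if_true] at hw'
      exact D.div (y k).bar (y (k + 1)) (hred k h).symm _ hw2 _ hw' hd
    · have h' : ¬ k + 1 < m := by omega
      simp only [h', if_false] at hw'
      have h2 : m - 1 = k := by omega
      rw [h2] at hw'
      exact D.divE (y k).bar (y k) (Lt.bar_ne _) _ hw2 _ hw' hd
  long := by
    intro k hk
    have e1 : pre D.φ y (k + 1 + 1) = pre D.φ y (k + 1) * D.φ (y (k + 1)) := rfl
    rw [e1, FinGen.dist, inv_mul_cancel_left]
    exact D.long _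

theorem UU_shift {m i j : ℕ} (hij : i < j) (hj : j ≤ m) (y : ℕ → Lt) :
    UU (QQ D m y) i j = (fun x => pre D.φ y i * x) ''
      (UU (QQ D (j - i) (fun n => y (i + n))) 0 (j - i)) := by
  ext v
  constructor
  · rintro ⟨k, h1, h2, w, hw, rfl⟩
    have hkm : k < m := by omega
    simp only [hkm, if_true] at hw
    have h3 : k - i < j - i := by omega
    refine ⟨pre D.φ (fun n => y (i + n)) (k - i) * w, ⟨k - i, Nat.zero_le _, h3, w, ?_, rfl⟩, ?_⟩
    · simp only [h3, if_true]
      have : i + (k - i) = k := by omega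
      rw [this]; exact hw
    · simp only
      rw [← mul_assoc, ← pre_shift]
      have : i + (k - i) = k := by omega
      rw [this]
  · rintro ⟨_, ⟨k, h1, h2, w, hw, rfl⟩, rfl⟩
    simp only [h2, if_true] at hw
    have h3 : i + k < m := by omega
    refine ⟨i + k, by omega, by omega, w, ?_, ?_⟩
    · simp only [h3, if_true]; exact hw
    · simp only
      rw [pre_shift, mul_assoc]

/-- The word is `K`-good. -/
def GoodWord (K m : ℕ) (y : ℕ → Lt) : Prop := GoodAt A K (ν (2 * K + 1)) (UU (QQ D m y) 0 m)

/-- Words all of whose subwords are good are nontrivial. -/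
theorem pre_ne_one (hν : Monotone ν) {m : ℕ} {y : ℕ → Lt} (hm : 1 ≤ m) (hred : Red m y) {K : ℕ}
    (hK : 15 ≤ K) (hl0 : 2 * D0 ν C' + ν 7 < l) (hl : 6 * (3 * ν (2 * K + 1) + 1 + D0 ν C') ≤ l)
    (hgood : ∀ i j, i < j → j ≤ m → GoodAt A K (ν (2 * K + 1)) (UU (QQ D m y) i j)) :
    pre D.φ y m ≠ 1 := by
  intro h1
  rcases Nat.eq_or_lt_of_le hm with h | h
  · rw [← h] at h1
    have h2 : pre D.φ y 1 = D.φ (y 0) := by simp [pre]
    rw [h2] at h1
    have := D.long (y 0)
    rw [h1, A.len_one] at this
    omega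
  · have c := chain_of_red D hν hm hred
    have hZ := lemmaZ c hm hK hl0 hl (fun i j h1 h2 _ => hgood i j h1 h2)
    obtain ⟨t, ht, hd⟩ := lemmaQ c hl0 m 0 m (by omega) (by omega)
      (fun i' j' a1 a2 a3 _ => hZ (j' - i') i' j' (by omega) (by omega) (by omega) 3 (by omega))
      (m - 2) (Nat.zero_le _) (by omega) 0 (fun _ => 1) (by intro i j _ hj; simp; omega)
      (by
        refine ⟨0, le_rfl, by omega, ?_⟩
        have : (0:ℕ) < m := by omega
        simp only [QQ, this, if_true]
        exact ⟨1, D.one_mem _, by simp [pre]⟩)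
      (by
        refine ⟨m - 1, by omega, by omega, ?_⟩
        have : m - 1 < m := by omega
        simp only [QQ, this, if_true]
        refine ⟨D.φ (y (m - 1)), D.φ_mem _, ?_⟩
        rw [← h1]
        have e : m = m - 1 + 1 := by omega
        conv_rhs => rw [e, pre])
    have e2 : m - 2 + 1 = m - 1 := by omega
    simp only [e2] at hd
    have e : m = m - 1 + 1 := by omega
    rw [e, pre] at h1
    have h3 : A.dist (1 : G) (pre D.φ y (m - 1)) = A.len (D.φ (y (m - 1))) := by
      rw [← h1, A.dist_comm, FinGen.dist, inv_mul_cancel_left]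
    rw [h3] at hd
    have := D.long (y (m - 1))
    unfold D0 at *
    omega

theorem red_shift {m i j : ℕ} {y : ℕ → Lt} (hred : Red m y) (hj : j ≤ m) :
    Red (j - i) (fun n => y (i + n)) := by
  intro k hk
  have := hred (i + k) (by omega)
  simpa [Nat.add_assoc] using this

/-- The homomorphism from the free group. -/
noncomputable def ff : FreeGroup Bool →* G := FreeGroup.lift (fun b => D.φ (b, true))

theorem ff_word (L : List (Bool × Bool)) :
    FreeGroup.lift (fun b => D.φ (b, true)) (FreeGroup.mk L) = (L.map D.φ).prod := by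
  rw [FreeGroup.lift_mk]
  congr 1
  apply List.map_congr_left
  rintro ⟨b, s⟩ _
  cases s
  · simp only [cond_false]
    rw [← D.φ_bar]; rfl
  · rfl

theorem pre_eq_prod (φ : Lt → G) (y : ℕ → Lt) (m : ℕ) :
    pre φ y m = ((List.range m).map fun k => φ (y k)).prod := by
  induction m with
  | zero => simp [pre]
  | succ m ih =>
    rw [pre, ih, List.range_succ, List.map_append, List.prod_append]
    simp

/-- If `G` has no free subgroup, there is a bad word of minimal length. -/
theorem exists_bad (hν : Monotone ν)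
    (hno : ¬ ∃ f : FreeGroup Bool →* G, Function.Injective f) {K : ℕ}
    (hK : 15 ≤ K) (hl0 : 2 * D0 ν C' + ν 7 < l)
    (hl : 6 * (3 * ν (2 * K + 1) + 1 + D0 ν C') ≤ l) :
    ∃ (m : ℕ) (y : ℕ → Lt), 1 ≤ m ∧ Red m y ∧ ¬ GoodWord D K m y ∧
      ∀ i j, i < j → j ≤ m → j - i < m → GoodAt A K (ν (2 * K + 1)) (UU (QQ D m y) i j) := by
  classical
  have hex : ∃ m, ∃ y, 1 ≤ m ∧ Red m y ∧ ¬ GoodWord D K m y := by
    by_contra hcon
    push Not at hcon
    apply hno
    refine ⟨ff D, ?_⟩
    rw [injective_iff_map_eq_one]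
    intro w hw
    by_contra hw1
    set L := w.toWord with hL
    have hLne : L ≠ [] := by
      rw [hL, Ne, FreeGroup.toWord_eq_nil_iff]; exact hw1
    have hred : FreeGroup.IsReduced L := FreeGroup.isReduced_toWord
    set y : ℕ → Lt := fun k => L.getD k (true, true) with hy
    have hyk : ∀ k (hk : k < L.length), y k = L[k] := by
      intro k hk
      simp [hy, List.getD, hk]
    have hRed : Red L.length y := by
      intro k hk
      rw [hyk k (by omega), hyk (k + 1) hk]
      have h1 := List.isChain_iff_getElem.1 hred k hk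
      intro h2
      rw [h2] at h1
      have := h1 rfl
      simp only [Lt.bar] at this
      revert this
      cases (L[k]).2 <;> decide
    have hm : 1 ≤ L.length := List.length_pos_iff.2 hLne
    refine pre_ne_one D hν hm hRed hK hl0 hl (fun i j hij hj => ?_) ?_
    · rw [UU_shift D hij hj]
      exact (hcon (j - i) _ (by omega) (red_shift hRed hj)).left _
    · have e1 : pre D.φ y L.length = (L.map D.φ).prod := by
        rw [pre_eq_prod]
        congr 1
        apply List.ext_getElem
        · simp
        · intro n h1 h2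
          simp only [List.length_map, List.length_range] at h1
          simp only [List.getElem_map, List.getElem_range]
          rw [hyk n h1]
      rw [e1, ← ff_word]
      have : FreeGroup.mk L = w := FreeGroup.mk_toWord
      rw [this]
      exact hw
  obtain ⟨y, h1, h2, h3⟩ := Nat.find_spec hex
  refine ⟨Nat.find hex, y, h1, h2, h3, fun i j hij hj hji => ?_⟩
  have := Nat.find_min hex hji
  push Not at this
  rw [UU_shift D hij hj]
  exact (this _ (by omega) (red_shift h2 hj)).left _

end Pool.Agent.TH98.SC
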